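import Pool.Agent.Lib.MP_19b7b8_co_FB.ChkT
import Pool.Agent.Lib.MP_19b7b8_co_FB.ChkI1
import Pool.Agent.Lib.MP_19b7b8_co_FB.ChkI2
import Pool.Agent.Lib.MP_19b7b8_co_FB.ChkI3

/-!
# MP_19b7b8_co: invariance and positivity of the blocks (value 1/4)
-/

namespace Pool.Agent.T53b

open Finset Pool.Agent.T53

theorem mem16 (t : ℕ) (ht : t < 16) :
    t ∈ [0, 1, 2, 3, 4, 5, 6, 7, 8, 9, 10, 11, 12, 13, 14, 15] := by
  simp only [List.mem_cons, List.not_mem_nil, or_false]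
  omega

theorem mem4 (b : ℕ) (hb : b < 4) : b ∈ [0, 1, 2, 3] := by
  simp only [List.mem_cons, List.not_mem_nil, or_false]
  omega

theorem ixb_eq (f' : ℕ) : ixb (f' / 16) (f' % 16) = f' := Nat.div_add_mod f' 16

theorem ckG_all (i f' : ℕ) (hi : i < 4) (hf' : f' < 64) : ckG1b i f' = true := by
  have h := (allN_iff _ _).1 (AllL_spec (AllL_spec ckG_lb i (mem4 i hi)) (f' / 16) (mem4 _ (by omega)))
    (f' % 16) (Nat.mod_lt _ (by norm_num))
  rw [ixb_eq] at h
  exact h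

theorem ckI_all (a t f' : ℕ) (ha : a < 4) (h0 : a ≠ 0) (ht : t < 16) (hf' : f' < 64) :
    ckI1b a t f' = true := by
  have h : ckIb a t (f' / 16) = true := by
    obtain h | h | h : a = 1 ∨ a = 2 ∨ a = 3 := by omega
    · subst h; exact AllL_spec (AllL_spec ckI1_lb t (mem16 t ht)) (f' / 16) (mem4 _ (by omega))
    · subst h; exact AllL_spec (AllL_spec ckI2_lb t (mem16 t ht)) (f' / 16) (mem4 _ (by omega))
    · subst h; exact AllL_spec (AllL_spec ckI3_lb t (mem16 t ht)) (f' / 16) (mem4 _ (by omega))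
  have h1 := (allN_iff _ _).1 h (f' % 16) (Nat.mod_lt _ (by norm_num))
  rw [ixb_eq] at h1
  exact h1

/-- entries of the vectors -/
noncomputable def RVb (i j f : ℕ) : ℤ := (rvb i j f : ℤ) - 16384

/-- entries of the forms -/
noncomputable def TT (t f f' : ℕ) : ℤ := (ttb (t + 16 * f + 1024 * f') : ℤ) - 268435456

theorem ttb_eq' (t f f' : ℕ) (ht : t < 16) (hf : f < 64) :
    ttb (t + 16 * f + 1024 * f') = tqb f' (t + 16 * f) := ttb_eq _ _ (by omega)

theorem tr4_lt (i : ℕ) : tr4 i < 16 := dg_lt _ _ _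

/-- the table is a Gram matrix -/
theorem gram4b (i f f' : ℕ) (hi : i < 4) (hf : f < 64) (hf' : f' < 64) :
    TT (tr4 i) f f' = ∑ j ∈ range 31, RVb i j f * RVb i j f' := by
  have h := (allN_iff _ _).1 (ckG_all i f' hi hf') f hf
  have h1 := Nat.eq_of_beq_eq_true h
  rw [sumN_eq, sumN_eq] at h1
  have h2 : (tqb f' (tr4 i + 16 * f) + 16384 * ∑ j ∈ range 31, (rvb i j f + rvb i j f') : ℕ) =
      ∑ j ∈ range 31, rvb i j f * rvb i j f' + (8321499136 + 268435456) := h1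
  rw [← ttb_eq' (tr4 i) f f' (tr4_lt i) hf] at h2
  have h3 : ((ttb (tr4 i + 16 * f + 1024 * f') : ℕ) : ℤ) +
      16384 * ∑ j ∈ range 31, ((rvb i j f : ℤ) + (rvb i j f' : ℤ)) =
      ∑ j ∈ range 31, (rvb i j f : ℤ) * (rvb i j f' : ℤ) + (8321499136 + 268435456) := by
    exact_mod_cast h2
  have h4 : ∑ j ∈ range 31, RVb i j f * RVb i j f' =
      ∑ j ∈ range 31, (rvb i j f : ℤ) * (rvb i j f' : ℤ) -
      16384 * ∑ j ∈ range 31, ((rvb i j f : ℤ) + (rvb i j f' : ℤ)) + 31 * 16384 ^ 2 := by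
    simp only [RVb, mul_sum, ← sum_sub_distrib]
    have : (31 * 16384 ^ 2 : ℤ) = ∑ _j ∈ range 31, (16384 ^ 2 : ℤ) := by simp
    rw [this, ← sum_add_distrib]
    exact sum_congr rfl fun j _ => by ring
  rw [h4]
  unfold TT
  linarith

theorem TT_inv (a t f f' : ℕ) (ha : a < 4) (h0 : a ≠ 0) (ht : t < 16) (hf : f < 64) (hf' : f' < 64) :
    ttb (pm (at4 a) 4 t + 16 * pm (af4 a) 6 f + 1024 * pm (af4 a) 6 f') =
      ttb (t + 16 * f + 1024 * f') := by
  have hI := (allN_iff _ _).1 (ckI_all a t f' ha h0 ht hf') f hf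
  have hI' : tqb (pm (af4 a) 6 f') (pm (at4 a) 4 t + 16 * pm (af4 a) 6 f) =
    tqb f' (t + 16 * f) := Nat.eq_of_beq_eq_true hI
  have b1 : pm (at4 a) 4 t < 16 := mk_lt _ _ fun _ _ => bt_lt _ _
  have b2 : pm (af4 a) 6 f < 64 := mk_lt _ _ fun _ _ => bt_lt _ _
  rw [ttb_eq' _ _ _ b1 b2, ttb_eq' _ _ _ ht hf]
  exact hI'

/-- the form of the type `t` is symmetric and positive semidefinite -/
def Pos (t : ℕ) : Prop := (∀ f < 64, ∀ f' < 64, TT t f f' = TT t f' f) ∧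
  ∀ z : ℕ → ℝ, 0 ≤ ∑ f ∈ range 64, ∑ f' ∈ range 64, z f * z f' * (TT t f f' : ℝ)

theorem pos_rep (i : ℕ) (hi : i < 4) : Pos (tr4 i) := by
  constructor
  · intro f hf f' hf'
    rw [gram4b i f f' hi hf hf', gram4b i f' f hi hf' hf]
    exact sum_congr rfl fun j _ => mul_comm _ _
  · intro z
    have h : ∑ f ∈ range 64, ∑ f' ∈ range 64, z f * z f' * (TT (tr4 i) f f' : ℝ) =
        ∑ j ∈ range 31, (∑ f ∈ range 64, z f * (RVb i j f : ℝ)) ^ 2 := by
      have e1 : ∀ f ∈ range 64, ∀ f' ∈ range 64, z f * z f' * (TT (tr4 i) f f' : ℝ) =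
          ∑ j ∈ range 31, (z f * (RVb i j f : ℝ)) * (z f' * (RVb i j f' : ℝ)) := by
        intro f hf f' hf'
        rw [gram4b i f f' hi (mem_range.1 hf) (mem_range.1 hf')]
        push_cast
        rw [mul_sum]
        exact sum_congr rfl fun j _ => by ring
      rw [sum_congr rfl fun f hf => sum_congr rfl fun f' hf' => e1 f hf f' hf']
      rw [sum_congr rfl fun f _ => sum_comm, sum_comm]
      refine sum_congr rfl fun j _ => ?_
      rw [pow_two, sum_mul]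
      exact sum_congr rfl fun f _ => by rw [mul_sum]
    rw [h]
    exact sum_nonneg fun j _ => sq_nonneg _

theorem pos_15 : Pos 15 := by
  have h0 : ∀ f < 64, ∀ f' < 64, TT 15 f f' = 0 := by
    intro f hf f' hf'
    have h := (allN_iff _ _).1 ((allN_iff _ _).1 ckZ_b f' hf') f hf
    have h1 : tqb f' (15 + 16 * f) = 268435456 := Nat.eq_of_beq_eq_true h
    unfold TT
    rw [ttb_eq' 15 f f' (by norm_num) hf, h1]
    norm_num
  constructor
  · intro f hf f' hf'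
    rw [h0 f hf f' hf', h0 f' hf' f hf]
  · intro z
    refine le_of_eq (Eq.symm ?_)
    refine sum_eq_zero fun f hf => sum_eq_zero fun f' hf' => ?_
    rw [h0 f (mem_range.1 hf) f' (mem_range.1 hf')]
    simp

theorem ckInv : allN (fun a => allN (fun f =>
    Nat.beq (pm (af4 a) 6 (pm (af4 a) 6 f)) f) 64) 4 = true := by decide +kernel

theorem pf_inv (a f : ℕ) (ha : a < 4) (hf : f < 64) : pm (af4 a) 6 (pm (af4 a) 6 f) = f :=
  Nat.eq_of_beq_eq_true ((allN_iff _ _).1 ((allN_iff _ _).1 ckInv a ha) f hf)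

theorem pf_lt (a f : ℕ) : pm (af4 a) 6 f < 64 := mk_lt _ _ fun _ _ => bt_lt _ _

theorem sum_pf (a : ℕ) (ha : a < 4) (F : ℕ → ℝ) :
    ∑ f ∈ range 64, F f = ∑ f ∈ range 64, F (pm (af4 a) 6 f) := by
  refine sum_nbij' (pm (af4 a) 6) (pm (af4 a) 6) ?_ ?_ ?_ ?_ ?_
  · intro f _; exact mem_range.2 (pf_lt a f)
  · intro f _; exact mem_range.2 (pf_lt a f)
  · intro f hf; exact pf_inv a f ha (mem_range.1 hf)
  · intro f hf; exact pf_inv a f ha (mem_range.1 hf)
  · intro f hf; rw [pf_inv a f ha (mem_range.1 hf)]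

theorem TT_step (a t f f' : ℕ) (ha : a < 4) (h0 : a ≠ 0) (ht : t < 16) (hf : f < 64) (hf' : f' < 64) :
    TT (pm (at4 a) 4 t) (pm (af4 a) 6 f) (pm (af4 a) 6 f') = TT t f f' := by
  unfold TT
  rw [TT_inv a t f f' ha h0 ht hf hf']

theorem pos_step (a t : ℕ) (ha : a < 4) (h0 : a ≠ 0) (ht : t < 16) (h : Pos t) :
    Pos (pm (at4 a) 4 t) := by
  constructor
  · intro f hf f' hf'
    have e1 := TT_step a t (pm (af4 a) 6 f) (pm (af4 a) 6 f') ha h0 ht (pf_lt a f) (pf_lt a f')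
    have e2 := TT_step a t (pm (af4 a) 6 f') (pm (af4 a) 6 f) ha h0 ht (pf_lt a f') (pf_lt a f)
    rw [pf_inv a f ha hf, pf_inv a f' ha hf'] at e1 e2
    rw [e1, e2]
    exact h.1 _ (pf_lt a f) _ (pf_lt a f')
  · intro z
    rw [sum_pf a ha]
    have e : ∀ f ∈ range 64, ∑ f' ∈ range 64, z (pm (af4 a) 6 f) * z f' *
        (TT (pm (at4 a) 4 t) (pm (af4 a) 6 f) f' : ℝ) =
        ∑ f' ∈ range 64, z (pm (af4 a) 6 f) * z (pm (af4 a) 6 f') * (TT t f f' : ℝ) := by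
      intro f hf
      rw [sum_pf a ha]
      refine sum_congr rfl fun f' hf' => ?_
      rw [TT_step a t f f' ha h0 ht (mem_range.1 hf) (mem_range.1 hf')]
    rw [sum_congr rfl e]
    exact h.2 fun f => z (pm (af4 a) 6 f)

theorem ckCh : (Nat.beq (tr4 0) 0 && (Nat.beq (tr4 1) 1 && (Nat.beq (tr4 2) 3 && (Nat.beq (tr4 3) 7 &&
    (Nat.beq (pm (at4 3) 4 1) 2 && (Nat.beq (pm (at4 2) 4 2) 4 && (Nat.beq (pm (at4 1) 4 4) 8 &&
    (Nat.beq (pm (at4 2) 4 3) 5 && (Nat.beq (pm (at4 1) 4 5) 9 && (Nat.beq (pm (at4 3) 4 5) 6 &&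
    (Nat.beq (pm (at4 1) 4 6) 10 && (Nat.beq (pm (at4 2) 4 10) 12 &&
    (Nat.beq (pm (at4 1) 4 7) 11 && (Nat.beq (pm (at4 2) 4 11) 13 &&
     Nat.beq (pm (at4 3) 4 13) 14)))))))))))))) = true := by decide +kernel

theorem pos_all (t : ℕ) (ht : t < 16) : Pos t := by
  have h := ckCh
  simp only [Bool.and_eq_true] at h
  obtain ⟨e0, e1, e3, e7, c2, c4, c8, c5, c9, c6, c10, c12, c11, c13, c14⟩ := h
  have p0 : Pos 0 := Nat.eq_of_beq_eq_true e0 ▸ pos_rep 0 (by norm_num)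
  have p1 : Pos 1 := Nat.eq_of_beq_eq_true e1 ▸ pos_rep 1 (by norm_num)
  have p3 : Pos 3 := Nat.eq_of_beq_eq_true e3 ▸ pos_rep 2 (by norm_num)
  have p7 : Pos 7 := Nat.eq_of_beq_eq_true e7 ▸ pos_rep 3 (by norm_num)
  have p2 : Pos 2 := Nat.eq_of_beq_eq_true c2 ▸ pos_step 3 1 (by norm_num) (by norm_num) (by norm_num) p1
  have p4 : Pos 4 := Nat.eq_of_beq_eq_true c4 ▸ pos_step 2 2 (by norm_num) (by norm_num) (by norm_num) p2
  have p8 : Pos 8 := Nat.eq_of_beq_eq_true c8 ▸ pos_step 1 4 (by norm_num) (by norm_num) (by norm_num) p4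
  have p5 : Pos 5 := Nat.eq_of_beq_eq_true c5 ▸ pos_step 2 3 (by norm_num) (by norm_num) (by norm_num) p3
  have p9 : Pos 9 := Nat.eq_of_beq_eq_true c9 ▸ pos_step 1 5 (by norm_num) (by norm_num) (by norm_num) p5
  have p6 : Pos 6 := Nat.eq_of_beq_eq_true c6 ▸ pos_step 3 5 (by norm_num) (by norm_num) (by norm_num) p5
  have p10 : Pos 10 := Nat.eq_of_beq_eq_true c10 ▸ pos_step 1 6 (by norm_num) (by norm_num) (by norm_num) p6
  have p12 : Pos 12 := Nat.eq_of_beq_eq_true c12 ▸ pos_step 2 10 (by norm_num) (by norm_num) (by norm_num) p10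
  have p11 : Pos 11 := Nat.eq_of_beq_eq_true c11 ▸ pos_step 1 7 (by norm_num) (by norm_num) (by norm_num) p7
  have p13 : Pos 13 := Nat.eq_of_beq_eq_true c13 ▸ pos_step 2 11 (by norm_num) (by norm_num) (by norm_num) p11
  have p14 : Pos 14 := Nat.eq_of_beq_eq_true c14 ▸ pos_step 3 13 (by norm_num) (by norm_num) (by norm_num) p13
  have p15 := pos_15
  obtain h | h | h | h | h | h | h | h | h | h | h | h | h | h | h | h : t = 0 ∨ t = 1 ∨ t = 2 ∨ t = 3 ∨
    t = 4 ∨ t = 5 ∨ t = 6 ∨ t = 7 ∨ t = 8 ∨ t = 9 ∨ t = 10 ∨ t = 11 ∨ t = 12 ∨ t = 13 ∨ t = 14 ∨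
    t = 15 := by omega
  all_goals (subst h; assumption)

theorem h4b_swap (t f f' : ℕ) (ht : t < 16) (hf : f < 64) (hf' : f' < 64) :
    ttb (t + 16 * f + 1024 * f') = ttb (t + 16 * f' + 1024 * f) := by
  have h1 := (pos_all t ht).1 f hf f' hf'
  unfold TT at h1
  have h2 : (ttb (t + 16 * f + 1024 * f') : ℤ) = (ttb (t + 16 * f' + 1024 * f) : ℤ) := by linarith
  exact_mod_cast h2

/-! ### the blocks -/

/-- the block of type 4 -/
noncomputable def h4b (g : ℕ) : ℕ := ttb (code16 g)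
/-- the block of type 2 -/
noncomputable def h2b (g : ℕ) : ℕ := dg 32 T2b (code pos8 8 g)
/-- the block of first order -/
noncomputable def h1b (g : ℕ) : ℕ := dg 32 T1b (code pos5 5 g)

/-- the total of the blocks -/
noncomputable def FFb (g : ℕ) : ℕ := blk h4b p4 15 g + blk h2b p2 45 g + blk h1b p1 60 g

theorem ck_pos : (allN (fun i => Nat.ble (Nat.add (post i) 1) 20) 4 &&
    (allN (fun i => Nat.ble (Nat.add (posf i) 1) 20) 6 &&
    (allN (fun i => Nat.ble (Nat.add (posg i) 1) 20) 6 &&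
    (allN (fun i => Nat.ble (Nat.add (pos8 i) 1) 20) 8 &&
     allN (fun i => Nat.ble (Nat.add (pos5 i) 1) 20) 5)))) = true := by decide +kernel

theorem post_lt (i : ℕ) (hi : i < 4) : post i < 20 := by
  have h := ck_pos; simp only [Bool.and_eq_true] at h
  exact Nat.le_of_ble_eq_true ((allN_iff _ _).1 h.1 i hi)
theorem posf_lt (i : ℕ) (hi : i < 6) : posf i < 20 := by
  have h := ck_pos; simp only [Bool.and_eq_true] at h
  exact Nat.le_of_ble_eq_true ((allN_iff _ _).1 h.2.1 i hi)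
theorem posg_lt (i : ℕ) (hi : i < 6) : posg i < 20 := by
  have h := ck_pos; simp only [Bool.and_eq_true] at h
  exact Nat.le_of_ble_eq_true ((allN_iff _ _).1 h.2.2.1 i hi)
theorem pos8_lt (i : ℕ) (hi : i < 8) : pos8 i < 20 := by
  have h := ck_pos; simp only [Bool.and_eq_true] at h
  exact Nat.le_of_ble_eq_true ((allN_iff _ _).1 h.2.2.2.1 i hi)
theorem pos5_lt (i : ℕ) (hi : i < 5) : pos5 i < 20 := by
  have h := ck_pos; simp only [Bool.and_eq_true] at h
  exact Nat.le_of_ble_eq_true ((allN_iff _ _).1 h.2.2.2.2 i hi)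

/-- check: `a i < m` and the symmetry moves the position `pos i` to `pos (a i)` -/
def ckPb (r : ℕ) (pos a : ℕ → ℕ) (m : ℕ) (sl : ℕ → ℕ → ℕ) : Bool :=
  allN (fun i => (Nat.ble (Nat.add (a i) 1) m) && (Nat.beq (sl r (pos i)) (pos (a i)))) m

theorem ckPb_spec {r : ℕ} {pos a : ℕ → ℕ} {m : ℕ} (h : ckPb r pos a m sel = true) :
    (∀ i < m, a i < m) ∧ ∀ i < m, sel r (pos i) = pos (a i) := by
  constructor
  · intro i hi
    have h1 := (allN_iff _ _).1 h i hi
    simp only [Bool.and_eq_true] at h1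
    exact Nat.le_of_ble_eq_true h1.1
  · intro i hi
    have h1 := (allN_iff _ _).1 h i hi
    simp only [Bool.and_eq_true] at h1
    exact Nat.eq_of_beq_eq_true h1.2

theorem ckP4 : allN (fun a => ckPb (r4 a) post (at4 a) 4 sel && (ckPb (r4 a) posf (af4 a) 6 sel &&
    ckPb (r4 a) posg (af4 a) 6 sel)) 4 = true := by decide +kernel

theorem ckP4s : (allN (fun i => Nat.beq (sel (r4 4) (post i)) (post i)) 4 &&
    (allN (fun i => Nat.beq (sel (r4 4) (posf i)) (posg i)) 6 &&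
     allN (fun i => Nat.beq (sel (r4 4) (posg i)) (posf i)) 6)) = true := by decide +kernel

/-- permutation of the bits -/
noncomputable def a8b (a i : ℕ) : ℕ := dg 4 A8 (Nat.add (Nat.mul 8 a) i)
/-- permutation of the bits -/
noncomputable def a5b (a i : ℕ) : ℕ := dg 4 A5 (Nat.add (Nat.mul 5 a) i)

theorem ckP2 : allN (fun a => ckPb (r2 a) pos8 (a8b a) 8 sel &&
    allN (fun c => Nat.beq (dg 32 T2b (pm (a8b a) 8 c)) (dg 32 T2b c)) 256) 5 = true := by decide +kernel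

theorem ckP1 : allN (fun a => ckPb (r1 a) pos5 (a5b a) 5 sel &&
    allN (fun c => Nat.beq (dg 32 T1b (pm (a5b a) 5 c)) (dg 32 T1b c)) 32) 4 = true := by decide +kernel

theorem h2b_act (a : ℕ) (ha : a < 5) (g : ℕ) : h2b (act (r2 a) g) = h2b g := by
  have h := (allN_iff _ _).1 ckP2 a ha
  simp only [Bool.and_eq_true] at h
  obtain ⟨h1, h2'⟩ := ckPb_spec h.1
  unfold h2b
  rw [code_act_pm pos8 (a8b a) 8 (r2 a) g pos8_lt h1 h2']
  exact Nat.eq_of_beq_eq_true ((allN_iff _ _).1 h.2 _ (code_lt _ _ _))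

theorem h1b_act (a : ℕ) (ha : a < 4) (g : ℕ) : h1b (act (r1 a) g) = h1b g := by
  have h := (allN_iff _ _).1 ckP1 a ha
  simp only [Bool.and_eq_true] at h
  obtain ⟨h1', h2'⟩ := ckPb_spec h.1
  unfold h1b
  rw [code_act_pm pos5 (a5b a) 5 (r1 a) g pos5_lt h1' h2']
  exact Nat.eq_of_beq_eq_true ((allN_iff _ _).1 h.2 _ (code_lt _ _ _))

theorem pm_at0 (m c : ℕ) (a : ℕ → ℕ) (ha : ∀ i < m, a i = i) (hc : c < 2 ^ m) : pm a m c = c := by
  unfold pm
  rw [mk_congr (b' := bt c) fun i hi => by rw [ha i hi]]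
  exact mk_bt m c hc

theorem ckA0 : (allN (fun i => Nat.beq (at4 0 i) i) 4 && allN (fun i => Nat.beq (af4 0 i) i) 6) = true := by
  decide +kernel

theorem h4b_act (a : ℕ) (ha : a < 5) (g : ℕ) : h4b (act (r4 a) g) = h4b g := by
  unfold h4b code16
  rcases Nat.lt_succ_iff_lt_or_eq.1 ha with h | h
  · have h' := (allN_iff _ _).1 ckP4 a h
    simp only [Bool.and_eq_true] at h'
    obtain ⟨t1, t2⟩ := ckPb_spec h'.1
    obtain ⟨f1, f2⟩ := ckPb_spec h'.2.1
    obtain ⟨g1, g2⟩ := ckPb_spec h'.2.2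
    rw [code_act_pm post (at4 a) 4 (r4 a) g post_lt t1 t2,
      code_act_pm posf (af4 a) 6 (r4 a) g posf_lt f1 f2,
      code_act_pm posg (af4 a) 6 (r4 a) g posg_lt g1 g2]
    have ht := code_lt post 4 g
    have hf := code_lt posf 6 g
    have hg := code_lt posg 6 g
    generalize code post 4 g = t at *
    generalize code posf 6 g = f at *
    generalize code posg 6 g = f' at *
    by_cases h0 : a = 0
    · subst h0
      have hA := ckA0
      simp only [Bool.and_eq_true] at hA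
      rw [pm_at0 4 t _ (fun i hi => Nat.eq_of_beq_eq_true ((allN_iff _ _).1 hA.1 i hi)) ht,
        pm_at0 6 f _ (fun i hi => Nat.eq_of_beq_eq_true ((allN_iff _ _).1 hA.2 i hi)) hf,
        pm_at0 6 f' _ (fun i hi => Nat.eq_of_beq_eq_true ((allN_iff _ _).1 hA.2 i hi)) hg]
    · exact TT_inv a t f f' h h0 ht hf hg
  · subst h
    have hs := ckP4s
    simp only [Bool.and_eq_true] at hs
    have e1 : code post 4 (act (r4 4) g) = code post 4 g := by
      rw [code_act _ _ _ _ post_lt]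
      exact mk_congr fun i hi => by rw [Nat.eq_of_beq_eq_true ((allN_iff _ _).1 hs.1 i hi)]
    have e2 : code posf 6 (act (r4 4) g) = code posg 6 g := by
      rw [code_act _ _ _ _ posf_lt]
      exact mk_congr fun i hi => by rw [Nat.eq_of_beq_eq_true ((allN_iff _ _).1 hs.2.1 i hi)]
    have e3 : code posg 6 (act (r4 4) g) = code posf 6 g := by
      rw [code_act _ _ _ _ posg_lt]
      exact mk_congr fun i hi => by rw [Nat.eq_of_beq_eq_true ((allN_iff _ _).1 hs.2.2 i hi)]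
    rw [e1, e2, e3]
    exact h4b_swap _ _ _ (code_lt _ _ _) (code_lt _ _ _) (code_lt _ _ _)

theorem FFb_act {s : ℕ} (hs : s < 5) (g : ℕ) : FFb (act (pg s) g) = FFb g := by
  unfold FFb
  rw [blk_act h4b p4 r4 15 ka4 5 h4b_act s (ckB_spec ckB4 s hs) g,
    blk_act h2b p2 r2 45 ka2 5 h2b_act s (ckB_spec ckB2 s hs) g,
    blk_act h1b p1 r1 60 ka1 4 h1b_act s (ckB_spec ckB1 s hs) g]

end Pool.Agent.T53b
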