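import Pool.Agent.Lib.MP_19b7b8_co_FA.Samp
import Pool.Agent.Lib.MP_19b7b8_co_FB.Sym
import Pool.Agent.Lib.MP_19b7b8_co_FB.ChkA
import Pool.Agent.Lib.MP_19b7b8_co_FB.ChkB
import Pool.Agent.Lib.MP_19b7b8_co_FB.ChkC

/-!
# MP_19b7b8_co: the pointwise inequality for the samples (value 1/4)
-/

namespace Pool.Agent.T53b

open Finset Pool.Agent.T53

/-- first five vertices of the graphs to be enumerated -/
def repLb : List ℕ := repAb ++ (repBb ++ repCb)

theorem mem8 (r : ℕ) (hr : r < 8) : r ∈ [0, 1, 2, 3, 4, 5, 6, 7] := by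
  simp only [List.mem_cons, List.not_mem_nil, or_false]
  omega

theorem ckM_all : ∀ s ∈ repLb, ∀ r < 8,
    chkb ttb T2b T1b UU 7 (cg UU (1024 * s + 128 * r)) = true := by
  intro s hs r hr
  unfold repLb at hs
  rw [List.mem_append, List.mem_append] at hs
  rcases hs with hs | hs | hs
  · exact AllL_spec (AllL_spec ckMAb s hs) r (mem8 r hr)
  · exact AllL_spec (AllL_spec ckMBb s hs) r (mem8 r hr)
  · exact AllL_spec (AllL_spec ckMCb s hs) r (mem8 r hr)

/-- membership in a list of numbers -/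
def memLb (s : ℕ) (l : List ℕ) : Bool := List.rec false (fun a _ ih => Bool.or (Nat.beq s a) ih) l

theorem memLb_spec (s : ℕ) (l : List ℕ) (h : memLb s l = true) : s ∈ l := by
  induction l with
  | nil => simp [memLb] at h
  | cons a l ih =>
    have h1 : (Nat.beq s a || memLb s l) = true := h
    rw [Bool.or_eq_true] at h1
    rcases h1 with h1 | h1
    · rw [Nat.eq_of_beq_eq_true h1]; exact List.mem_cons_self
    · exact List.mem_cons_of_mem _ (ih h1)

theorem ckRb : allN (fun s => Bool.or (Nat.beq s 0) (Bool.or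
    (anyN (fun q => Nat.ble (Nat.add (act (pg q) (Nat.mul 1024 s)) 1) (Nat.mul 1024 s)) 4)
    (memLb s repLb))) 1024 = true := by decide +kernel

theorem ckHib : allN (fun q => allN (fun i => Nat.ble 10 (sel (pg q) (Nat.add 10 i))) 10) 4 = true := by
  decide +kernel

theorem ckV5b : allN (fun j => Bool.or (Bool.not (inFS 5 j)) (Nat.ble 10 j)) 20 = true := by
  decide +kernel

theorem ckOk : allN (fun q => okP (pg q)) 5 = true := by decide +kernel

/-- the five excluded systems on the vertices `0, ..., 5`: the triples 012, 013, 234 and one of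
the sets: nothing; 235; 035; 015; 025 and 035 -/
def five : List ℕ := [787456, 787460, 787584, 787968, 787840]

theorem exL_perm : AllL (fun e => ∃ p, okP p = true ∧ memLb (act p e) five = true) exL :=
  ⟨⟨6938, by decide +kernel, by decide +kernel⟩,
   ⟨10473, by decide +kernel, by decide +kernel⟩,
   ⟨35610, by decide +kernel, by decide +kernel⟩,
   ⟨6868, by decide +kernel, by decide +kernel⟩,
   ⟨35603, by decide +kernel, by decide +kernel⟩,
   ⟨10445, by decide +kernel, by decide +kernel⟩,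
   ⟨43205, by decide +kernel, by decide +kernel⟩,
   ⟨10473, by decide +kernel, by decide +kernel⟩,
   ⟨21603, by decide +kernel, by decide +kernel⟩,
   ⟨68363, by decide +kernel, by decide +kernel⟩,
   ⟨71912, by decide +kernel, by decide +kernel⟩,
   ⟨35491, by decide +kernel, by decide +kernel⟩,
   ⟨47146, by decide +kernel, by decide +kernel⟩,
   ⟨104616, by decide +kernel, by decide +kernel⟩,
   ⟨54300, by decide +kernel, by decide +kernel⟩,
   ⟨119316, by decide +kernel, by decide +kernel⟩,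
   ⟨169632, by decide +kernel, by decide +kernel⟩,
   ⟨180762, by decide +kernel, by decide +kernel⟩, True.intro⟩

theorem cond_or (b x : Bool) : cond b true x = true ↔ (b = true ∨ x = true) := by
  cases b <;> simp

theorem leafb_spec (C : ℕ) (h : leafb ttb T2b T1b C = true) :
    (∃ q < 5, dg 20 C (127 + q) + 1 ≤ dg 20 C 132) ∨ (∃ v < 6, dg 20 C (121 + v) = 0) ∨
    anyL (dg 20 C 132) = true ∨
    (leafS4 ttb C + (leafS2 T2b C + leafS1 T1b C) ≤ 11072962560) := by
  unfold leafb at h
  simp only [cond_or] at h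
  rcases h with h | h | h | h | h | h | h | h | h | h | h | h | h
  · exact Or.inl ⟨0, by norm_num, Nat.le_of_ble_eq_true h⟩
  · exact Or.inl ⟨1, by norm_num, Nat.le_of_ble_eq_true h⟩
  · exact Or.inl ⟨2, by norm_num, Nat.le_of_ble_eq_true h⟩
  · exact Or.inl ⟨3, by norm_num, Nat.le_of_ble_eq_true h⟩
  · exact Or.inl ⟨4, by norm_num, Nat.le_of_ble_eq_true h⟩
  · exact Or.inr (Or.inl ⟨0, by norm_num, Nat.eq_of_beq_eq_true h⟩)
  · exact Or.inr (Or.inl ⟨1, by norm_num, Nat.eq_of_beq_eq_true h⟩)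
  · exact Or.inr (Or.inl ⟨2, by norm_num, Nat.eq_of_beq_eq_true h⟩)
  · exact Or.inr (Or.inl ⟨3, by norm_num, Nat.eq_of_beq_eq_true h⟩)
  · exact Or.inr (Or.inl ⟨4, by norm_num, Nat.eq_of_beq_eq_true h⟩)
  · exact Or.inr (Or.inl ⟨5, by norm_num, Nat.eq_of_beq_eq_true h⟩)
  · exact Or.inr (Or.inr (Or.inl h))
  · exact Or.inr (Or.inr (Or.inr (Nat.le_of_ble_eq_true h)))

theorem chkb_spec (n : ℕ) (C : ℕ) (h : chkb ttb T2b T1b UU n C = true) (b : ℕ → ℕ)
    (hb : ∀ j < n, b j < 2) :
    leafb ttb T2b T1b (C + ∑ j ∈ range n, b j * dg 2660 UU j) = true := by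
  induction n generalizing C with
  | zero => rw [range_zero, sum_empty, add_zero]; exact h
  | succ n ih =>
    have h1 : cond (chkb ttb T2b T1b UU n C) (chkb ttb T2b T1b UU n (Nat.add C (dg 2660 UU n))) false = true := h
    have h2 : chkb ttb T2b T1b UU n C = true ∧ chkb ttb T2b T1b UU n (C + dg 2660 UU n) = true := by
      cases hc : chkb ttb T2b T1b UU n C
      · rw [hc] at h1; simp at h1
      · rw [hc] at h1; exact ⟨rfl, h1⟩
    rw [sum_range_succ]
    have h3 := hb n (by omega)
    obtain h4 | h4 : b n = 0 ∨ b n = 1 := by omega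
    · rw [h4, zero_mul, add_zero]
      exact ih C h2.1 fun j hj => hb j (by omega)
    · rw [h4, one_mul, add_comm (∑ j ∈ range n, b j * dg 2660 UU j), ← add_assoc]
      exact ih _ h2.2 fun j hj => hb j (by omega)

theorem bt_hi (g j : ℕ) (hj : 10 ≤ j) : bt (1024 * (g / 1024)) j = bt g j := by
  rw [bt_eq, bt_eq]
  have h1 : (2 : ℕ) ^ j = 1024 * 2 ^ (j - 10) := by
    rw [show (1024 : ℕ) = 2 ^ 10 by norm_num, ← pow_add]; congr 1; omega
  rw [h1, ← Nat.div_div_eq_div_mul, ← Nat.div_div_eq_div_mul, Nat.mul_div_cancel_left _ (by norm_num)]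

theorem bt_hi7 (g j : ℕ) (hj : 7 ≤ j) : bt (128 * (g / 128)) j = bt g j := by
  rw [bt_eq, bt_eq]
  have h1 : (2 : ℕ) ^ j = 128 * 2 ^ (j - 7) := by
    rw [show (128 : ℕ) = 2 ^ 7 by norm_num, ← pow_add]; congr 1; omega
  rw [h1, ← Nat.div_div_eq_div_mul, ← Nat.div_div_eq_div_mul, Nat.mul_div_cancel_left _ (by norm_num)]

theorem bt_lo (s j : ℕ) (hj : j < 7) : bt (128 * s) j = 0 := by
  rw [bt_eq]
  have h1 : 128 * s = 2 ^ j * (2 * (2 ^ (6 - j) * s)) := by
    rw [show (128 : ℕ) = 2 ^ j * (2 * 2 ^ (6 - j)) by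
      rw [← pow_succ', ← pow_add, show j + (6 - j + 1) = 7 by omega]; norm_num]
    ring
  rw [h1, Nat.mul_div_cancel_left _ (by positivity)]
  omega

theorem cg_split (g : ℕ) : cg UU g = cg UU (128 * (g / 128)) + ∑ j ∈ range 7, bt g j * dg 2660 UU j := by
  unfold cg
  rw [sumN_eq, sumN_eq]
  show ∑ j ∈ range 20, bt g j * dg 2660 UU j = ∑ j ∈ range 20, bt (128 * (g / 128)) j * dg 2660 UU j + _
  rw [show (20 : ℕ) = 7 + 13 by norm_num, sum_range_add, sum_range_add]
  have h1 : ∑ j ∈ range 7, bt (128 * (g / 128)) j * dg 2660 UU j = 0 :=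
    sum_eq_zero fun j hj => by rw [bt_lo _ _ (mem_range.1 hj), zero_mul]
  have h2 : ∀ j ∈ range 13, bt (128 * (g / 128)) (7 + j) * dg 2660 UU (7 + j) =
      bt g (7 + j) * dg 2660 UU (7 + j) := fun j _ => by rw [bt_hi7 _ _ (by omega)]
  rw [h1, sum_congr rfl h2]
  omega

theorem act_hi {q : ℕ} (hq : q < 4) (g : ℕ)
    (h : act (pg q) (1024 * (g / 1024)) < 1024 * (g / 1024)) : act (pg q) g < g := by
  have e (x : ℕ) : act (pg q) x = mk (fun j => bt x (sel (pg q) j)) 10 +
      2 ^ 10 * mk (fun j => bt x (sel (pg q) (10 + j))) 10 := by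
    unfold act; rw [show (20 : ℕ) = 10 + 10 by norm_num, mk_add]
  have h1 : mk (fun j => bt (1024 * (g / 1024)) (sel (pg q) (10 + j))) 10 =
      mk (fun j => bt g (sel (pg q) (10 + j))) 10 := mk_congr fun i hi => by
    have := Nat.le_of_ble_eq_true ((allN_iff _ _).1 ((allN_iff _ _).1 ckHib q hq) i hi)
    exact bt_hi _ _ this
  rw [e, h1] at h
  rw [e]
  have h2 : mk (fun j => bt g (sel (pg q) j)) 10 < 2 ^ 10 := mk_lt _ _ fun _ _ => bt_lt _ _
  have h3 : 1024 * (g / 1024) ≤ g := Nat.mul_div_le g 1024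
  omega

variable {V : Type*}

/-- none of the samples is one of the five excluded systems -/
def No5 (c : V → V → V → Bool) : Prop := ∀ X : Fin 6 → V, gX c X ∉ five

theorem no5_exL {c : V → V → V → Bool} (hc : Sys c) (h5 : No5 c) (X : Fin 6 → V) : gX c X ∉ exL := by
  intro h
  obtain ⟨p, hp, h1⟩ := AllL_spec exL_perm _ h
  have h2 := gX_perm hc hp X
  have h3 := memLb_spec _ _ h1
  rw [← h2] at h3
  exact h5 _ h3

theorem pointwise_b {c : V → V → V → Bool} (hc : Sys c) (h5 : No5 c) (g : ℕ) :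
    ∀ X : Fin 6 → V, gX c X = g → FFb g ≤ 11072962560 := by
  induction g using Nat.strong_induction_on with
  | _ g ih =>
    intro X hX
    have hg : g < 2 ^ 20 := by rw [← hX]; exact gX_lt c X
    have hv : Valid g := by rw [← hX]; exact gX_valid hc X
    have step : ∀ q < 5, act (pg q) g < g → FFb g ≤ 11072962560 := by
      intro q hq hlt
      have h1 := gX_perm hc ((allN_iff _ _).1 ckOk q hq) X
      rw [hX] at h1
      have := ih _ hlt _ h1
      rwa [FFb_act hq] at this
    have hs : g / 1024 < 1024 := by rw [Nat.div_lt_iff_lt_mul (by norm_num)]; omega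
    have h1 := (allN_iff _ _).1 ckRb (g / 1024) hs
    rw [Bool.or_eq_true, Bool.or_eq_true] at h1
    rcases h1 with h1 | h1 | h1
    · exfalso
      have h0 : g / 1024 = 0 := Nat.eq_of_beq_eq_true h1
      obtain ⟨j, hj, h2, h3⟩ := hv 5 (by norm_num)
      have h4 := (allN_iff _ _).1 ckV5b j hj
      rw [h2] at h4
      have h5 : 10 ≤ j := Nat.le_of_ble_eq_true (by simpa using h4)
      rw [← bt_hi g j h5, h0, bt_eq] at h3
      simp at h3
    · obtain ⟨q, hq, h2⟩ := (anyN_iff _ _).1 h1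
      exact step q (by omega) (act_hi hq g (Nat.le_of_ble_eq_true h2))
    · have h2 := ckM_all _ (memLb_spec _ _ h1) (g / 128 % 8) (Nat.mod_lt _ (by norm_num))
      rw [show 1024 * (g / 1024) + 128 * (g / 128 % 8) = 128 * (g / 128) by omega] at h2
      have h3 := chkb_spec 7 _ h2 (bt g) fun j _ => bt_lt _ _
      have h4 : leafb ttb T2b T1b (cg UU g) = true := by
        rw [cg_split g]; exact h3
      rcases leafb_spec _ h4 with ⟨q, hq, h5⟩ | ⟨v, hv', h5⟩ | h5 | h5
      · rw [dg_cg _ _ (by omega), dg_cg _ _ (by omega), phi_act hq, phi_g g hg] at h5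
        exact step q hq h5
      · exfalso
        rw [dg_cg _ _ (by omega)] at h5
        obtain ⟨j, hj, h6, h7⟩ := hv v hv'
        rw [phi_fs hv' g h5 j hj h6] at h7
        omega
      · exfalso
        rw [dg_cg _ _ (by omega), phi_g g hg] at h5
        have h6 : g ∈ exL := memLb_spec g exL h5
        rw [← hX] at h6
        exact no5_exL hc ‹No5 c› X h6
      · rw [leafS4_eq, leafS2_eq, leafS1_eq, sumN_eq, sumN_eq, sumN_eq] at h5
        have e4 : ∑ k ∈ range 15, ttb (dg 20 (cg UU g) k) = blk h4b p4 15 g :=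
          sum_congr rfl fun k hk => by
            have hk' := mem_range.1 hk
            rw [dg_cg _ _ (by omega), phi_4 hk']; rfl
        have e2 : ∑ k ∈ range 45, dg 32 T2b (dg 20 (cg UU g) (15 + k)) = blk h2b p2 45 g :=
          sum_congr rfl fun k hk => by
            have hk' := mem_range.1 hk
            rw [dg_cg _ _ (by omega), phi_2 hk']; rfl
        have e1 : ∑ k ∈ range 60, dg 32 T1b (dg 20 (cg UU g) (60 + k)) = blk h1b p1 60 g :=
          sum_congr rfl fun k hk => by
            have hk' := mem_range.1 hk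
            rw [dg_cg _ _ (by omega), phi_1 hk']; rfl
        rw [e4, e2, e1] at h5
        unfold FFb
        omega

end Pool.Agent.T53b
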