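import Pool.Agent.Lib.MP_19b7b8_co_FB.Exp
import Pool.Agent.Lib.MP_19b7b8_co_FB.Enum

/-!
# MP_19b7b8_co: the expectations of the blocks and the bound 1/4 for regular weights
-/

namespace Pool.Agent.T53b

open Finset Pool.Agent.T53

variable {V : Type*} [Fintype V]

theorem okP4 : allN (fun k => okP (p4 k)) 15 = true := by decide +kernel
theorem okP2 : allN (fun k => okP (p2 k)) 45 = true := by decide +kernel
theorem okP1 : allN (fun k => okP (p1 k)) 60 = true := by decide +kernel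

theorem Ev_blk (w : V → ℝ) {c : V → V → V → Bool} (hc : Sys c) (h p : ℕ → ℕ) (n : ℕ)
    (hp : allN (fun k => okP (p k)) n = true) :
    Ev w (fun X => (blk h p n (gX c X) : ℝ)) = n * Ev w (fun X => (h (gX c X) : ℝ)) := by
  unfold blk
  have e : (fun X : Fin 6 → V => ((∑ k ∈ range n, h (act (p k) (gX c X)) : ℕ) : ℝ)) =
      fun X => ∑ k ∈ range n, ((h (act (p k) (gX c X)) : ℕ) : ℝ) := by
    funext X; push_cast; rfl
  rw [e, Ev_sum, sum_congr rfl fun k hk => Ev_act w hc (fun g => (h g : ℝ))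
    ((allN_iff _ _).1 hp k (mem_range.1 hk))]
  rw [sum_const, card_range, nsmul_eq_mul]

theorem swap2 (s : Finset ℕ) (F : ℕ → V → V → ℝ) :
    ∑ j ∈ s, ∑ a, ∑ b, F j a b = ∑ a, ∑ b, ∑ j ∈ s, F j a b := by
  rw [sum_comm]
  exact sum_congr rfl fun a _ => sum_comm

theorem swap4 (s : Finset ℕ) (F : ℕ → V → V → V → V → ℝ) :
    ∑ j ∈ s, ∑ a, ∑ b, ∑ c, ∑ d, F j a b c d = ∑ a, ∑ b, ∑ c, ∑ d, ∑ j ∈ s, F j a b c d := by
  rw [sum_comm]
  refine sum_congr rfl fun a _ => ?_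
  rw [sum_comm]
  refine sum_congr rfl fun b _ => ?_
  exact swap2 s _

/-! ### the block of type 4 -/

omit [Fintype V] in
theorem h4b_six (c : V → V → V → Bool) (x0 x1 x2 x3 x4 x5 : V) :
    (h4b (gX c ![x0, x1, x2, x3, x4, x5]) : ℝ) = 268435456 +
      (TT (n4 (c x0 x1 x2) (c x0 x1 x3) (c x0 x2 x3) (c x1 x2 x3)) (pat c x0 x1 x2 x3 x4)
        (pat c x0 x1 x2 x3 x5) : ℝ) := by
  unfold h4b code16
  rw [code_post, code_posf, code_posg]
  unfold TT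
  push_cast
  ring

theorem fib_sum (w : V → ℝ) (p : V → ℕ) (hp : ∀ x, p x < 64) (G : ℕ → ℝ) :
    ∑ f ∈ range 64, (∑ x, if p x = f then w x else 0) * G f = ∑ x, w x * G (p x) := by
  simp only [sum_mul]
  rw [sum_comm]
  refine sum_congr rfl fun x _ => ?_
  rw [sum_eq_single (p x)]
  · rw [if_pos rfl]
  · intro f _ hf
    rw [if_neg (Ne.symm hf), zero_mul]
  · intro h
    exact absurd (mem_range.2 (hp x)) h

theorem quad_nonneg (w : V → ℝ) (t : ℕ) (ht : t < 16) (p : V → ℕ) (hp : ∀ x, p x < 64) :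
    0 ≤ ∑ x, ∑ y, w x * w y * (TT t (p x) (p y) : ℝ) := by
  have h := (pos_all t ht).2 fun f => ∑ x, if p x = f then w x else 0
  have e : ∑ f ∈ range 64, ∑ f' ∈ range 64, (∑ x, if p x = f then w x else 0) *
      (∑ x, if p x = f' then w x else 0) * (TT t f f' : ℝ) =
      ∑ x, ∑ y, w x * w y * (TT t (p x) (p y) : ℝ) := by
    have e1 : ∀ f ∈ range 64, ∑ f' ∈ range 64, (∑ x, if p x = f then w x else 0) *
        (∑ x, if p x = f' then w x else 0) * (TT t f f' : ℝ) =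
        (∑ x, if p x = f then w x else 0) * ∑ y, w y * (TT t f (p y) : ℝ) := by
      intro f _
      rw [← fib_sum w p hp fun f' => (TT t f f' : ℝ), mul_sum]
      exact sum_congr rfl fun f' _ => by ring
    rw [sum_congr rfl e1, fib_sum w p hp fun f => ∑ y, w y * (TT t f (p y) : ℝ)]
    refine sum_congr rfl fun x _ => ?_
    rw [mul_sum]
    exact sum_congr rfl fun y _ => by ring
  rw [e] at h
  exact h

theorem Ev_h4b (w : V → ℝ) (hw : ∀ x, 0 ≤ w x) (hs : ∑ x, w x = 1) (c : V → V → V → Bool) :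
    268435456 ≤ Ev w (fun X => (h4b (gX c X) : ℝ)) := by
  have h : Ev w (fun X => (h4b (gX c X) : ℝ)) = 268435456 + ∑ x0, ∑ x1, ∑ x2, ∑ x3,
      w x0 * (w x1 * (w x2 * w x3)) * ∑ x4, ∑ x5, w x4 * w x5 *
        (TT (n4 (c x0 x1 x2) (c x0 x1 x3) (c x0 x2 x3) (c x1 x2 x3)) (pat c x0 x1 x2 x3 x4)
        (pat c x0 x1 x2 x3 x5) : ℝ) := by
    have e1 := Ev_six w (fun X => (h4b (gX c X) : ℝ))
    have e2 : (268435456 : ℝ) = ∑ x0, ∑ x1, ∑ x2, ∑ x3, ∑ x4, ∑ x5,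
        w x0 * (w x1 * (w x2 * (w x3 * (w x4 * w x5)))) * 268435456 := by
      rw [← Ev_six w fun _ => (268435456 : ℝ), Ev_one w hs]
    rw [e1]
    conv_rhs => rw [e2]
    simp only [← sum_add_distrib]
    refine sum_congr rfl fun x0 _ => sum_congr rfl fun x1 _ => sum_congr rfl fun x2 _ =>
      sum_congr rfl fun x3 _ => ?_
    generalize hR : (fun x y => (TT (n4 (c x0 x1 x2) (c x0 x1 x3) (c x0 x2 x3) (c x1 x2 x3))
      (pat c x0 x1 x2 x3 x) (pat c x0 x1 x2 x3 y) : ℝ)) = R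
    have hR' (x y : V) : (TT (n4 (c x0 x1 x2) (c x0 x1 x3) (c x0 x2 x3) (c x1 x2 x3))
      (pat c x0 x1 x2 x3 x) (pat c x0 x1 x2 x3 y) : ℝ) = R x y := by rw [← hR]
    simp only [h4b_six, hR']
    rw [mul_sum, ← sum_add_distrib]
    refine sum_congr rfl fun x4 _ => ?_
    rw [mul_sum, ← sum_add_distrib]
    refine sum_congr rfl fun x5 _ => ?_
    ring
  rw [h]
  have : 0 ≤ ∑ x0, ∑ x1, ∑ x2, ∑ x3,
      w x0 * (w x1 * (w x2 * w x3)) * ∑ x4, ∑ x5, w x4 * w x5 *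
        (TT (n4 (c x0 x1 x2) (c x0 x1 x3) (c x0 x2 x3) (c x1 x2 x3)) (pat c x0 x1 x2 x3 x4)
        (pat c x0 x1 x2 x3 x5) : ℝ) :=
    sum_nonneg fun x0 _ => sum_nonneg fun x1 _ => sum_nonneg fun x2 _ => sum_nonneg fun x3 _ =>
      mul_nonneg (mul_nonneg (hw _) (mul_nonneg (hw _) (mul_nonneg (hw _) (hw _))))
        (quad_nonneg w _ (n4_lt _ _ _ _) (pat c x0 x1 x2 x3) (pat_lt c x0 x1 x2 x3))
  linarith

/-! ### the block of type 2 -/

/-- entries of the vectors of the block of type 2, shifted by `2^14` -/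
noncomputable def rw2b (j f : ℕ) : ℕ := dg 16 V2b (Nat.add (Nat.mul 16 j) f)

theorem ckG2b : allN (fun f => allN (fun f' =>
  Nat.beq (Nat.add (dg 32 T2b (Nat.add f (Nat.mul 16 f')))
      (Nat.mul 16384 (sumN (fun j => Nat.add (rw2b j f) (rw2b j f')) 3)))
    (Nat.add (sumN (fun j => Nat.mul (rw2b j f) (rw2b j f')) 3) (Nat.add 805306368 67108864))) 16) 16
    = true := by decide +kernel

/-- entries of the vectors -/
noncomputable def RWb (j f : ℕ) : ℤ := (rw2b j f : ℤ) - 16384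

theorem gram2b (f f' : ℕ) (hf : f < 16) (hf' : f' < 16) :
    (dg 32 T2b (f + 16 * f') : ℤ) = 67108864 + ∑ j ∈ range 3, RWb j f * RWb j f' := by
  have h := (allN_iff _ _).1 ((allN_iff _ _).1 ckG2b f hf) f' hf'
  have h1 := Nat.eq_of_beq_eq_true h
  rw [sumN_eq, sumN_eq] at h1
  have h2 : (dg 32 T2b (f + 16 * f') + 16384 * ∑ j ∈ range 3, (rw2b j f + rw2b j f') : ℕ) =
      ∑ j ∈ range 3, rw2b j f * rw2b j f' + (805306368 + 67108864) := h1
  have h3 : ((dg 32 T2b (f + 16 * f') : ℕ) : ℤ) +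
      16384 * ∑ j ∈ range 3, ((rw2b j f : ℤ) + (rw2b j f' : ℤ)) =
      ∑ j ∈ range 3, (rw2b j f : ℤ) * (rw2b j f' : ℤ) + (805306368 + 67108864) := by
    exact_mod_cast h2
  have h4 : ∑ j ∈ range 3, RWb j f * RWb j f' = ∑ j ∈ range 3, (rw2b j f : ℤ) * (rw2b j f' : ℤ) -
      16384 * ∑ j ∈ range 3, ((rw2b j f : ℤ) + (rw2b j f' : ℤ)) + 3 * 16384 ^ 2 := by
    simp only [RWb, sum_range_succ, sum_range_zero]
    ring
  rw [h4]
  linarith

omit [Fintype V] in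
theorem h2b_six (c : V → V → V → Bool) (x0 x1 x2 x3 x4 x5 : V) :
    (h2b (gX c ![x0, x1, x2, x3, x4, x5]) : ℝ) = 67108864 + ∑ j ∈ range 3,
      (RWb j (n4 (c x0 x1 x2) (c x0 x1 x3) (c x0 x2 x3) (c x1 x2 x3)) : ℝ) *
      (RWb j (n4 (c x0 x1 x4) (c x0 x1 x5) (c x0 x4 x5) (c x1 x4 x5)) : ℝ) := by
  unfold h2b
  rw [code_pos8]
  have h := gram2b (n4 (c x0 x1 x2) (c x0 x1 x3) (c x0 x2 x3) (c x1 x2 x3))
    (n4 (c x0 x1 x4) (c x0 x1 x5) (c x0 x4 x5) (c x1 x4 x5)) (n4_lt _ _ _ _) (n4_lt _ _ _ _)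
  generalize n4 (c x0 x1 x2) (c x0 x1 x3) (c x0 x2 x3) (c x1 x2 x3) = f at *
  generalize n4 (c x0 x1 x4) (c x0 x1 x5) (c x0 x4 x5) (c x1 x4 x5) = f' at *
  exact_mod_cast congrArg (fun z : ℤ => (z : ℝ)) h

theorem Ev_h2b (w : V → ℝ) (hw : ∀ x, 0 ≤ w x) (hs : ∑ x, w x = 1) (c : V → V → V → Bool) :
    67108864 ≤ Ev w (fun X => (h2b (gX c X) : ℝ)) := by
  have h : Ev w (fun X => (h2b (gX c X) : ℝ)) = 67108864 + ∑ x0, ∑ x1,
      w x0 * w x1 * ∑ j ∈ range 3, (∑ x, ∑ y, w x * w y *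
        (RWb j (n4 (c x0 x1 x) (c x0 x1 y) (c x0 x y) (c x1 x y)) : ℝ)) ^ 2 := by
    have e1 := Ev_six w (fun X => (h2b (gX c X) : ℝ))
    have e2 : (67108864 : ℝ) = ∑ x0, ∑ x1, ∑ x2, ∑ x3, ∑ x4, ∑ x5,
        w x0 * (w x1 * (w x2 * (w x3 * (w x4 * w x5)))) * 67108864 := by
      rw [← Ev_six w fun _ => (67108864 : ℝ), Ev_one w hs]
    rw [e1]
    conv_rhs => rw [e2]
    simp only [← sum_add_distrib]
    refine sum_congr rfl fun x0 _ => sum_congr rfl fun x1 _ => ?_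
    generalize hR : (fun j x y => (RWb j (n4 (c x0 x1 x) (c x0 x1 y) (c x0 x y) (c x1 x y)) : ℝ)) = R
    have hR' (j : ℕ) (x y : V) : (RWb j (n4 (c x0 x1 x) (c x0 x1 y) (c x0 x y) (c x1 x y)) : ℝ) =
      R j x y := by rw [← hR]
    simp only [h2b_six, hR']
    have e3 : ∑ j ∈ range 3, (∑ x, ∑ y, w x * w y * R j x y) ^ 2 =
        ∑ x2, ∑ x3, ∑ x4, ∑ x5, ∑ j ∈ range 3, w x2 * w x3 * R j x2 x3 * (w x4 * w x5 * R j x4 x5) := by
      rw [← swap4]
      refine sum_congr rfl fun j _ => ?_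
      rw [pow_two, sum_mul]
      refine sum_congr rfl fun x2 _ => ?_
      rw [sum_mul]
      refine sum_congr rfl fun x3 _ => ?_
      rw [mul_sum]
      exact sum_congr rfl fun x4 _ => by rw [mul_sum]
    rw [e3, mul_sum, ← sum_add_distrib]
    refine sum_congr rfl fun x2 _ => ?_
    rw [mul_sum, ← sum_add_distrib]
    refine sum_congr rfl fun x3 _ => ?_
    rw [mul_sum, ← sum_add_distrib]
    refine sum_congr rfl fun x4 _ => ?_
    rw [mul_sum, ← sum_add_distrib]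
    refine sum_congr rfl fun x5 _ => ?_
    rw [mul_add, mul_sum, mul_sum]
    congr 1
    exact sum_congr rfl fun j _ => by ring
  rw [h]
  have : 0 ≤ ∑ x0, ∑ x1,
      w x0 * w x1 * ∑ j ∈ range 3, (∑ x, ∑ y, w x * w y *
        (RWb j (n4 (c x0 x1 x) (c x0 x1 y) (c x0 x y) (c x1 x y)) : ℝ)) ^ 2 :=
    sum_nonneg fun x0 _ => sum_nonneg fun x1 _ =>
      mul_nonneg (mul_nonneg (hw _) (hw _)) (sum_nonneg fun j _ => sq_nonneg _)
  linarith

/-! ### the first order block -/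

/-- the multiplier of a pattern -/
noncomputable def mmb (f : ℕ) : ℕ := dg 32 MMb f

theorem ckM1b : allN (fun f => Bool.and
    (Nat.beq (dg 32 T1b (Nat.mul 2 f)) (Nat.add 67108864 (mmb f)))
    (Nat.beq (Nat.add (dg 32 T1b (Nat.add 1 (Nat.mul 2 f))) (Nat.mul 3 (mmb f))) 67108864)) 16 = true := by
  decide +kernel

theorem ckM15 : Nat.ble 1 (mmb 15) = true := by decide +kernel

theorem h1b_val (e : Bool) (f : ℕ) (hf : f < 16) :
    (dg 32 T1b (e.toNat + 2 * f) : ℤ) = 67108864 - (4 * (e.toNat : ℤ) - 1) * (mmb f : ℤ) := by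
  have h := (allN_iff _ _).1 ckM1b f hf
  simp only [Bool.and_eq_true] at h
  obtain ⟨h1, h2⟩ := h
  have h1' : dg 32 T1b (2 * f) = 67108864 + mmb f := Nat.eq_of_beq_eq_true h1
  have h2' : dg 32 T1b (1 + 2 * f) + 3 * mmb f = 67108864 := Nat.eq_of_beq_eq_true h2
  cases e
  · simp only [Bool.toNat_false, zero_add, Nat.cast_zero, mul_zero]
    have : ((dg 32 T1b (2 * f) : ℕ) : ℤ) = 67108864 + (mmb f : ℤ) := by exact_mod_cast h1'
    linarith
  · simp only [Bool.toNat_true, Nat.cast_one, mul_one]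
    have : ((dg 32 T1b (1 + 2 * f) : ℕ) : ℤ) + 3 * (mmb f : ℤ) = 67108864 := by
      exact_mod_cast h2'
    linarith

omit [Fintype V] in
theorem h1b_six (c : V → V → V → Bool) (x0 x1 x2 x3 x4 x5 : V) :
    (h1b (gX c ![x0, x1, x2, x3, x4, x5]) : ℝ) = 67108864 -
      (4 * ((c x0 x1 x2).toNat : ℝ) - 1) *
        (mmb (n4 (c x3 x4 x5) (c x0 x3 x4) (c x0 x3 x5) (c x0 x4 x5)) : ℝ) := by
  unfold h1b
  rw [code_pos5]
  have h := h1b_val (c x0 x1 x2) (n4 (c x3 x4 x5) (c x0 x3 x4) (c x0 x3 x5) (c x0 x4 x5)) (n4_lt _ _ _ _)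
  generalize n4 (c x3 x4 x5) (c x0 x3 x4) (c x0 x3 x5) (c x0 x4 x5) = f at *
  exact_mod_cast congrArg (fun z : ℤ => (z : ℝ)) h

/-- expectation of the multiplier -/
noncomputable def Emb (w : V → ℝ) (c : V → V → V → Bool) : ℝ := ∑ x0, ∑ x3, ∑ x4, ∑ x5,
  w x0 * (w x3 * (w x4 * w x5)) * (mmb (n4 (c x3 x4 x5) (c x0 x3 x4) (c x0 x3 x5) (c x0 x4 x5)) : ℝ)

theorem Emb_pos (w : V → ℝ) (hw : ∀ x, 0 ≤ w x) (hs : ∑ x, w x = 1) {c : V → V → V → Bool}
    (hc : Sys c) : 0 < Emb w c := by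
  obtain ⟨x, hx⟩ : ∃ x, w x ≠ 0 := by
    by_contra hcon
    have hcon' : ∀ x, w x = 0 := by
      intro x; by_contra hx; exact hcon ⟨x, hx⟩
    simp [hcon'] at hs
  have hxp : 0 < w x := lt_of_le_of_ne (hw x) (Ne.symm hx)
  have hxx : c x x x = true := by
    obtain ⟨i, j, k, _, _, h⟩ := hc.p5 fun _ => x
    exact h
  have hn (x0 x3 x4 x5 : V) : 0 ≤ w x0 * (w x3 * (w x4 * w x5)) *
      (mmb (n4 (c x3 x4 x5) (c x0 x3 x4) (c x0 x3 x5) (c x0 x4 x5)) : ℝ) :=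
    mul_nonneg (mul_nonneg (hw _) (mul_nonneg (hw _) (mul_nonneg (hw _) (hw _)))) (Nat.cast_nonneg _)
  have h1 : w x * (w x * (w x * w x)) * (mmb (n4 (c x x x) (c x x x) (c x x x) (c x x x)) : ℝ) ≤ Emb w c := by
    unfold Emb
    refine le_trans ?_ (single_le_sum (fun x0 _ => sum_nonneg fun x3 _ => sum_nonneg fun x4 _ =>
      sum_nonneg fun x5 _ => hn x0 x3 x4 x5) (mem_univ x))
    refine le_trans ?_ (single_le_sum (fun x3 _ => sum_nonneg fun x4 _ =>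
      sum_nonneg fun x5 _ => hn x x3 x4 x5) (mem_univ x))
    refine le_trans ?_ (single_le_sum (fun x4 _ =>
      sum_nonneg fun x5 _ => hn x x x4 x5) (mem_univ x))
    exact single_le_sum (f := fun x5 => w x * (w x * (w x * w x5)) *
      (mmb (n4 (c x x x5) (c x x x) (c x x x5) (c x x x5)) : ℝ)) (fun x5 _ => hn x x x x5) (mem_univ x)
  refine lt_of_lt_of_le ?_ h1
  rw [hxx]
  have h2 : n4 true true true true = 15 := rfl
  rw [h2]
  have h3 : 1 ≤ mmb 15 := Nat.le_of_ble_eq_true ckM15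
  have h4 : (0 : ℝ) < (mmb 15 : ℝ) := by exact_mod_cast h3
  positivity

/-- degree of a vertex -/
def degb (w : V → ℝ) (c : V → V → V → Bool) (x : V) : ℝ := ∑ y, ∑ z, w y * w z * ((c x y z).toNat : ℝ)

theorem Ev_h1b (w : V → ℝ) (hs : ∑ x, w x = 1) (c : V → V → V → Bool) (D : ℝ)
    (hD : ∀ x, w x ≠ 0 → degb w c x = D) :
    Ev w (fun X => (h1b (gX c X) : ℝ)) = 67108864 - (4 * D - 1) * Emb w c := by
  have e1 := Ev_six w (fun X => (h1b (gX c X) : ℝ))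
  have e2 : (67108864 : ℝ) = ∑ x0, ∑ x1, ∑ x2, ∑ x3, ∑ x4, ∑ x5,
      w x0 * (w x1 * (w x2 * (w x3 * (w x4 * w x5)))) * 67108864 := by
    rw [← Ev_six w fun _ => (67108864 : ℝ), Ev_one w hs]
  rw [e1]
  conv_rhs => rw [e2]
  unfold Emb
  rw [mul_sum, ← sum_sub_distrib]
  refine sum_congr rfl fun x0 _ => ?_
  simp only [h1b_six, mul_sub, sum_sub_distrib]
  congr 1
  by_cases h0 : w x0 = 0
  · simp [h0]
  have hd := hD x0 h0
  generalize hm : (fun x3 x4 x5 => (mmb (n4 (c x3 x4 x5) (c x0 x3 x4) (c x0 x3 x5) (c x0 x4 x5)) : ℝ)) = m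
  have hm' (x3 x4 x5 : V) : (mmb (n4 (c x3 x4 x5) (c x0 x3 x4) (c x0 x3 x5) (c x0 x4 x5)) : ℝ) =
    m x3 x4 x5 := by rw [← hm]
  simp only [hm']
  have e3 : ∑ x1, ∑ x2, w x1 * w x2 * (4 * ((c x0 x1 x2).toNat : ℝ) - 1) = 4 * D - 1 := by
    rw [← hd]
    unfold degb
    have e4 : (1 : ℝ) = ∑ x1, ∑ x2, w x1 * w x2 * 1 := by
      simp only [← mul_sum, ← sum_mul, hs, one_mul]
    conv_rhs => rw [e4]
    rw [mul_sum, ← sum_sub_distrib]
    refine sum_congr rfl fun x1 _ => ?_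
    rw [mul_sum, ← sum_sub_distrib]
    exact sum_congr rfl fun x2 _ => by ring
  rw [← e3, sum_mul]
  refine sum_congr rfl fun x1 _ => ?_
  rw [sum_mul]
  refine sum_congr rfl fun x2 _ => ?_
  simp only [mul_sum]
  refine sum_congr rfl fun x3 _ => sum_congr rfl fun x4 _ => sum_congr rfl fun x5 _ => by ring

/-- the bound for weights with constant degrees -/
theorem regular_quarter (w : V → ℝ) (hw : ∀ x, 0 ≤ w x) (hs : ∑ x, w x = 1) {c : V → V → V → Bool}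
    (hc : Sys c) (h5 : No5 c) (D : ℝ) (hD : ∀ x, w x ≠ 0 → degb w c x = D) : 1 / 4 ≤ D := by
  have h0 := Ev_mono w hw (fun X => ((blk h4b p4 15 (gX c X) : ℝ) + (blk h2b p2 45 (gX c X) : ℝ)) +
      (blk h1b p1 60 (gX c X) : ℝ))
    (fun _ => (11072962560 : ℝ)) (fun X => by
      have h := pointwise_b hc h5 (gX c X) X rfl
      unfold FFb at h
      exact_mod_cast h)
  rw [Ev_add, Ev_add, Ev_one w hs, Ev_blk w hc _ _ _ okP4,
    Ev_blk w hc _ _ _ okP2, Ev_blk w hc _ _ _ okP1, Ev_h1b w hs c D hD] at h0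
  have h4' := Ev_h4b w hw hs c
  have h2' := Ev_h2b w hw hs c
  have hm := Emb_pos w hw hs hc
  push_cast at h0
  by_contra hcon
  rw [not_le] at hcon
  have h6 : 0 < Emb w c * (1 - 4 * D) := mul_pos hm (by linarith)
  nlinarith

end Pool.Agent.T53b
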