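import Pool.Agent.Lib.MP_19b7b8_co_FB.Six

/-!
# MP_19b7b8_co: averaging over the subsets of a given size
-/

namespace Pool.Agent.T53b

open Finset Pool.Agent.T53

variable {n : ℕ}

theorem swap3f (K : Finset (Fin n)) (F : Finset (Finset (Fin n)))
    (G : Finset (Fin n) → Fin n → Fin n → Fin n → ℝ) :
    ∑ e ∈ F, ∑ x ∈ K, ∑ y ∈ K, ∑ z ∈ K, G e x y z = ∑ x ∈ K, ∑ y ∈ K, ∑ z ∈ K, ∑ e ∈ F, G e x y z := by
  rw [sum_comm]
  refine sum_congr rfl fun x _ => ?_
  rw [sum_comm]
  refine sum_congr rfl fun y _ => ?_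
  exact sum_comm

theorem tri_sub (F : Finset (Finset (Fin n))) (h3 : ∀ e ∈ F, e.card = 3) (K : Finset (Fin n)) :
    ∑ x ∈ K, ∑ y ∈ K, ∑ z ∈ K, ((rel F x y z).toNat : ℝ) ≤
      6 * (F.filter fun t => t ⊆ K).card + (3 * (K.card : ℝ) ^ 2 - 2 * K.card) := by
  classical
  set F' := F.filter fun t => t ⊆ K with hF'
  have h1 : ∀ x ∈ K, ∀ y ∈ K, ∀ z ∈ K, ((rel F x y z).toNat : ℝ) ≤
      (((if x = y then 1 else 0) + (if y = z then 1 else 0) + (if x = z then 1 else 0)) -
        2 * (if x = y then (if y = z then 1 else 0) else 0)) +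
        ∑ e ∈ F', (if ({x, y, z} : Finset (Fin n)) = e then (1 : ℝ) else 0) := by
    intro x hx y hy z hz
    have hs : 0 ≤ ∑ e ∈ F', (if ({x, y, z} : Finset (Fin n)) = e then (1 : ℝ) else 0) :=
      sum_nonneg fun e _ => by split_ifs <;> norm_num
    by_cases hxy : x = y
    · by_cases hyz : y = z
      · subst hxy; subst hyz
        have : ((rel F x x x).toNat : ℝ) ≤ 1 := by
          cases rel F x x x <;> simp
        simp only [if_true]
        linarith
      · subst hxy
        have : ((rel F x x z).toNat : ℝ) ≤ 1 := by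
          cases rel F x x z <;> simp
        simp only [if_true, if_neg hyz]
        linarith
    · by_cases hyz : y = z
      · subst hyz
        have : ((rel F x y y).toNat : ℝ) ≤ 1 := by
          cases rel F x y y <;> simp
        simp only [if_true, if_neg hxy]
        linarith
      · by_cases hxz : x = z
        · subst hxz
          have : ((rel F x y x).toNat : ℝ) ≤ 1 := by
            cases rel F x y x <;> simp
          simp only [if_true, if_neg hxy, if_neg hyz]
          linarith
        · simp only [if_neg hxy, if_neg hyz, if_neg hxz]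
          by_cases hm : ({x, y, z} : Finset (Fin n)) ∈ F
          · have hm' : ({x, y, z} : Finset (Fin n)) ∈ F' := by
              rw [hF', mem_filter]
              refine ⟨hm, ?_⟩
              intro v hv
              simp only [mem_insert, mem_singleton] at hv
              rcases hv with rfl | rfl | rfl <;> assumption
            have h4 : ∑ e ∈ F', (if ({x, y, z} : Finset (Fin n)) = e then (1 : ℝ) else 0) = 1 := by
              rw [sum_ite_eq, if_pos hm']
            have : ((rel F x y z).toNat : ℝ) ≤ 1 := by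
              cases rel F x y z <;> simp
            linarith
          · have : rel F x y z = false := by
              unfold rel
              simp [hxy, hyz, hxz, hm]
            rw [this]
            simp only [Bool.toNat_false, Nat.cast_zero]
            linarith
  refine (sum_le_sum fun x hx => sum_le_sum fun y hy => sum_le_sum fun z hz => h1 x hx y hy z hz).trans ?_
  simp only [sum_add_distrib, sum_sub_distrib, ← mul_sum]
  have s1 : ∑ x ∈ K, ∑ y ∈ K, ∑ _z ∈ K, (if x = y then (1 : ℝ) else 0) = (K.card : ℝ) ^ 2 := by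
    simp only [sum_const, nsmul_eq_mul]
    simp only [← mul_sum, sum_ite_eq]
    rw [sum_congr rfl fun x hx => if_pos hx]
    simp [pow_two]
  have s2 : ∑ _x ∈ K, ∑ y ∈ K, ∑ z ∈ K, (if y = z then (1 : ℝ) else 0) = (K.card : ℝ) ^ 2 := by
    simp only [sum_ite_eq]
    rw [sum_congr rfl fun x _ => sum_congr rfl fun y hy => if_pos hy]
    simp [pow_two]
  have s3 : ∑ x ∈ K, ∑ _y ∈ K, ∑ z ∈ K, (if x = z then (1 : ℝ) else 0) = (K.card : ℝ) ^ 2 := by
    simp only [sum_ite_eq]
    rw [sum_congr rfl fun x hx => sum_congr rfl fun y _ => if_pos hx]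
    simp [pow_two]
  have s4 : ∑ x ∈ K, ∑ y ∈ K, ∑ z ∈ K, (if x = y then (if y = z then (1 : ℝ) else 0) else 0) =
      (K.card : ℝ) := by
    have : ∀ x ∈ K, ∑ y ∈ K, ∑ z ∈ K, (if x = y then (if y = z then (1 : ℝ) else 0) else 0) = 1 := by
      intro x hx
      have e1 : ∀ y ∈ K, ∑ z ∈ K, (if x = y then (if y = z then (1 : ℝ) else 0) else 0) =
          if x = y then 1 else 0 := by
        intro y hy
        by_cases hxy : x = y
        · simp only [if_pos hxy, sum_ite_eq, if_pos hy]
        · simp only [if_neg hxy, sum_const_zero]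
      rw [sum_congr rfl e1, sum_ite_eq, if_pos hx]
    rw [sum_congr rfl this]
    simp
  have s5 : ∑ x ∈ K, ∑ y ∈ K, ∑ z ∈ K,
      ∑ e ∈ F', (if ({x, y, z} : Finset (Fin n)) = e then (1 : ℝ) else 0) ≤ 6 * F'.card := by
    rw [← swap3f]
    calc _ ≤ ∑ e ∈ F', (6 : ℝ) := by
          refine sum_le_sum fun e he => ?_
          have he3 : e.card = 3 := h3 e (mem_filter.1 he).1
          have h6 := card_triples e he3
          have h7 : ∑ x ∈ K, ∑ y ∈ K, ∑ z ∈ K, (if ({x, y, z} : Finset (Fin n)) = e then (1 : ℝ) else 0) ≤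
              ∑ x : Fin n, ∑ y : Fin n, ∑ z : Fin n, (if ({x, y, z} : Finset (Fin n)) = e then (1 : ℝ) else 0) := by
            have hnn : ∀ x y z : Fin n, 0 ≤ (if ({x, y, z} : Finset (Fin n)) = e then (1 : ℝ) else 0) :=
              fun x y z => by split_ifs <;> norm_num
            refine (sum_le_sum fun x _ => sum_le_sum fun y _ => sum_le_sum_of_subset_of_nonneg
              (subset_univ K) fun z _ _ => hnn x y z).trans ?_
            refine (sum_le_sum fun x _ => sum_le_sum_of_subset_of_nonneg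
              (subset_univ K) fun y _ _ => sum_nonneg fun z _ => hnn x y z).trans ?_
            exact sum_le_sum_of_subset_of_nonneg (subset_univ K) fun x _ _ =>
              sum_nonneg fun y _ => sum_nonneg fun z _ => hnn x y z
          refine h7.trans ?_
          have h8 : ∑ x : Fin n, ∑ y : Fin n, ∑ z : Fin n, (if ({x, y, z} : Finset (Fin n)) = e then (1 : ℝ) else 0) =
              (((univ : Finset (Fin n × Fin n × Fin n)).filter
                fun p => ({p.1, p.2.1, p.2.2} : Finset (Fin n)) = e).card : ℝ) := by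
            rw [card_filter]
            push_cast
            rw [Fintype.sum_prod_type]
            exact sum_congr rfl fun x _ => by rw [Fintype.sum_prod_type]
          rw [h8]
          exact_mod_cast h6
      _ = 6 * F'.card := by rw [sum_const, nsmul_eq_mul]; ring
  rw [s1, s2, s3, s4]
  linarith

/-- the bound for a set of points which contains no bad set -/
theorem lower_sub (F : Finset (Finset (Fin n))) (h3 : ∀ e ∈ F, e.card = 3)
    (h5 : ∀ S : Finset (Fin n), S.card = 5 → ∃ e ∈ F, e ⊆ S) (K : Finset (Fin n)) (hK : K.Nonempty)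
    (hgood : ∀ S ∈ badSets F, ¬ S ⊆ K) :
    (K.card : ℝ) ^ 3 / 4 - 3 * (K.card : ℝ) ^ 2 + 2 * K.card ≤
      6 * (F.filter fun t => t ⊆ K).card := by
  classical
  have hc := rel_sys F h3 h5
  have : Nonempty K := hK.to_subtype
  have hc' : Sys fun x y z : K => rel F x.1 y.1 z.1 :=
    ⟨fun x y z => hc.s12 _ _ _, fun x y z => hc.s23 _ _ _, fun φ => hc.p5 fun i => (φ i).1⟩
  have hn5 : No5 fun x y z : K => rel F x.1 y.1 z.1 := by
    intro X hX
    have h1 : gX (fun x y z : K => rel F x.1 y.1 z.1) X = gX (rel F) fun i => (X i).1 := rfl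
    rw [h1] at hX
    have h2 := bad_of_five h3 hc _ hX
    refine hgood _ h2 ?_
    intro v hv
    obtain ⟨i, _, rfl⟩ := mem_image.1 hv
    exact (X i).2
  have h := lower_rel hc' hn5
  have e1 : ∑ x : K, ∑ y : K, ∑ z : K, ((rel F x.1 y.1 z.1).toNat : ℝ) =
      ∑ x ∈ K, ∑ y ∈ K, ∑ z ∈ K, ((rel F x y z).toNat : ℝ) := by
    rw [← sum_coe_sort K fun x => ∑ y ∈ K, ∑ z ∈ K, ((rel F x y z).toNat : ℝ)]
    refine sum_congr rfl fun x _ => ?_
    rw [← sum_coe_sort K fun y => ∑ z ∈ K, ((rel F x y z).toNat : ℝ)]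
    refine sum_congr rfl fun y _ => ?_
    rw [← sum_coe_sort K fun z => ((rel F x y z).toNat : ℝ)]
  rw [e1, Fintype.card_coe] at h
  have h2 := tri_sub F h3 K
  linarith

theorem card_sup (t : Finset (Fin n)) (k : ℕ) (hk : t.card ≤ k) :
    ((powersetCard k (univ : Finset (Fin n))).filter fun K => t ⊆ K).card =
      (n - t.card).choose (k - t.card) := by
  classical
  have h : (powersetCard (k - t.card) (univ \ t)).card = (n - t.card).choose (k - t.card) := by
    rw [card_powersetCard, card_sdiff_of_subset (subset_univ _), card_univ, Fintype.card_fin]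
  rw [← h]
  refine card_nbij' (fun K => K \ t) (fun L => L ∪ t) ?_ ?_ ?_ ?_
  · intro K hK
    have hK' := mem_filter.1 (mem_coe.1 hK)
    have h1 := (mem_powersetCard.1 hK'.1).2
    refine mem_coe.2 (mem_powersetCard.2 ⟨sdiff_subset_sdiff (subset_univ _) (le_refl _), ?_⟩)
    rw [card_sdiff_of_subset hK'.2, h1]
  · intro L hL
    have hL' := mem_powersetCard.1 (mem_coe.1 hL)
    have hd : Disjoint L t := by
      rw [disjoint_left]
      intro v hv hvt
      exact (mem_sdiff.1 (hL'.1 hv)).2 hvt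
    refine mem_coe.2 (mem_filter.2 ⟨mem_powersetCard.2 ⟨subset_univ _, ?_⟩, subset_union_right⟩)
    show (L ∪ t).card = k
    rw [card_union_of_disjoint hd, hL'.2]
    omega
  · intro K hK
    have hK' := mem_filter.1 (mem_coe.1 hK)
    exact sdiff_union_of_subset hK'.2
  · intro L hL
    have hL' := mem_powersetCard.1 (mem_coe.1 hL)
    have hd : Disjoint L t := by
      rw [disjoint_left]
      intro v hv hvt
      exact (mem_sdiff.1 (hL'.1 hv)).2 hvt
    exact union_sdiff_cancel_right hd

theorem sum_filter_card (F : Finset (Finset (Fin n))) (h3 : ∀ e ∈ F, e.card = 3) (k : ℕ) (hk : 3 ≤ k) :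
    ∑ K ∈ powersetCard k (univ : Finset (Fin n)), (F.filter fun t => t ⊆ K).card =
      F.card * (n - 3).choose (k - 3) := by
  classical
  simp only [card_filter]
  rw [sum_comm]
  have h : ∀ t ∈ F, ∑ K ∈ powersetCard k (univ : Finset (Fin n)), (if t ⊆ K then 1 else 0) =
      (n - 3).choose (k - 3) := by
    intro t ht
    rw [← card_filter, card_sup t k (by rw [h3 t ht]; exact hk), h3 t ht]
  rw [sum_congr rfl h, sum_const, smul_eq_mul]

theorem badSets_card (F : Finset (Finset (Fin n))) {S : Finset (Fin n)} (hS : S ∈ badSets F) :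
    S.card = 6 := by
  classical
  unfold badSets at hS
  exact (mem_powersetCard.1 (mem_filter.1 hS).1).2

open Classical in
theorem card_good (F : Finset (Finset (Fin n))) (k : ℕ) (hk : 6 ≤ k) :
    (n.choose k : ℝ) - (badSets F).card * ((n - 6).choose (k - 6) : ℝ) ≤
      ((powersetCard k (univ : Finset (Fin n))).filter fun K => ∀ S ∈ badSets F, ¬ S ⊆ K).card := by
  have h1 : (powersetCard k (univ : Finset (Fin n))).card = n.choose k := by
    rw [card_powersetCard, card_univ, Fintype.card_fin]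
  have h2 := card_filter_add_card_filter_not (s := powersetCard k (univ : Finset (Fin n)))
    fun K => ∀ S ∈ badSets F, ¬ S ⊆ K
  have h3 : ((powersetCard k (univ : Finset (Fin n))).filter fun K => ¬ ∀ S ∈ badSets F, ¬ S ⊆ K).card ≤
      (badSets F).card * (n - 6).choose (k - 6) := by
    have h4 : ((powersetCard k (univ : Finset (Fin n))).filter fun K => ¬ ∀ S ∈ badSets F, ¬ S ⊆ K) ⊆
        (badSets F).biUnion fun S => (powersetCard k (univ : Finset (Fin n))).filter fun K => S ⊆ K := by
      intro K hK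
      obtain ⟨hK1, hK2⟩ := mem_filter.1 hK
      obtain ⟨S, hS, hSK⟩ : ∃ S ∈ badSets F, S ⊆ K := by
        by_contra hcon
        exact hK2 fun S hS hSK => hcon ⟨S, hS, hSK⟩
      exact mem_biUnion.2 ⟨S, hS, mem_filter.2 ⟨hK1, hSK⟩⟩
    refine (card_le_card h4).trans (card_biUnion_le.trans ?_)
    have h5 : ∀ S ∈ badSets F, ((powersetCard k (univ : Finset (Fin n))).filter fun K => S ⊆ K).card =
        (n - 6).choose (k - 6) := by
      intro S hS
      rw [card_sup S k (by rw [badSets_card F hS]; exact hk), badSets_card F hS]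
    rw [sum_congr rfl h5, sum_const, smul_eq_mul]
  rw [h1] at h2
  have h2' : (((powersetCard k (univ : Finset (Fin n))).filter fun K => ∀ S ∈ badSets F, ¬ S ⊆ K).card : ℝ) +
      (((powersetCard k (univ : Finset (Fin n))).filter fun K => ¬ ∀ S ∈ badSets F, ¬ S ⊆ K).card : ℝ) =
      n.choose k := by exact_mod_cast h2
  have h3' : (((powersetCard k (univ : Finset (Fin n))).filter fun K => ¬ ∀ S ∈ badSets F, ¬ S ⊆ K).card : ℝ) ≤
      (badSets F).card * ((n - 6).choose (k - 6) : ℝ) := by exact_mod_cast h3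
  linarith

/-- the bound with the number of bad sets -/
theorem lower_count (F : Finset (Finset (Fin n))) (h3 : ∀ e ∈ F, e.card = 3)
    (h5 : ∀ S : Finset (Fin n), S.card = 5 → ∃ e ∈ F, e ⊆ S) (k : ℕ) (hk : 12 ≤ k) (hkn : k ≤ n) :
    ((k : ℝ) ^ 3 / 4 - 3 * (k : ℝ) ^ 2 + 2 * k) *
      (1 - (badSets F).card * (k.choose 6 : ℝ) / (n.choose 6 : ℝ)) * (n.choose 3 : ℝ) ≤
      6 * (k.choose 3 : ℝ) * F.card := by
  classical
  set q : ℝ := (k : ℝ) ^ 3 / 4 - 3 * (k : ℝ) ^ 2 + 2 * k with hq
  have hk' : (12 : ℝ) ≤ k := by exact_mod_cast hk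
  have hq0 : 0 ≤ q := by
    have : q = k * ((k : ℝ) * (k - 12) / 4 + 2) := by rw [hq]; ring
    rw [this]
    have : 0 ≤ (k : ℝ) - 12 := by linarith
    positivity
  have h1 := card_good F k (by omega)
  have h2 : q * (((powersetCard k (univ : Finset (Fin n))).filter
      fun K => ∀ S ∈ badSets F, ¬ S ⊆ K).card : ℝ) ≤ 6 * (F.card * ((n - 3).choose (k - 3) : ℝ)) := by
    have h4 : (∑ K ∈ powersetCard k (univ : Finset (Fin n)), ((F.filter fun t => t ⊆ K).card : ℝ)) =
        F.card * ((n - 3).choose (k - 3) : ℝ) := by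
      exact_mod_cast sum_filter_card F h3 k (by omega)
    rw [← h4]
    have h6 : ∑ K ∈ (powersetCard k (univ : Finset (Fin n))).filter
        fun K => ∀ S ∈ badSets F, ¬ S ⊆ K, q ≤
        ∑ K ∈ (powersetCard k (univ : Finset (Fin n))).filter fun K => ∀ S ∈ badSets F, ¬ S ⊆ K,
          6 * ((F.filter fun t => t ⊆ K).card : ℝ) := by
      refine sum_le_sum fun K hK => ?_
      obtain ⟨hK1, hK2⟩ := mem_filter.1 hK
      have hKc := (mem_powersetCard.1 hK1).2
      have := lower_sub F h3 h5 K (card_pos.1 (by rw [hKc]; omega)) hK2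
      rw [hKc] at this
      exact this
    rw [sum_const, nsmul_eq_mul, ← mul_sum] at h6
    have h7 : ∑ K ∈ (powersetCard k (univ : Finset (Fin n))).filter
        fun K => ∀ S ∈ badSets F, ¬ S ⊆ K, ((F.filter fun t => t ⊆ K).card : ℝ) ≤
        ∑ K ∈ powersetCard k (univ : Finset (Fin n)), ((F.filter fun t => t ⊆ K).card : ℝ) :=
      sum_le_sum_of_subset_of_nonneg (filter_subset _ _) fun K _ _ => Nat.cast_nonneg _
    linarith
  have c3 : (n.choose k : ℝ) * (k.choose 3 : ℝ) = (n.choose 3 : ℝ) * ((n - 3).choose (k - 3) : ℝ) := by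
    exact_mod_cast Nat.choose_mul (n := n) (show 3 ≤ k by omega)
  have c6 : (n.choose k : ℝ) * (k.choose 6 : ℝ) = (n.choose 6 : ℝ) * ((n - 6).choose (k - 6) : ℝ) := by
    exact_mod_cast Nat.choose_mul (n := n) (show 6 ≤ k by omega)
  have p0 : (0 : ℝ) < n.choose k := by exact_mod_cast Nat.choose_pos hkn
  have p3 : (0 : ℝ) < n.choose 3 := by exact_mod_cast Nat.choose_pos (show 3 ≤ n by omega)
  have p6 : (0 : ℝ) < n.choose 6 := by exact_mod_cast Nat.choose_pos (show 6 ≤ n by omega)
  have h8 : q * ((n.choose k : ℝ) - (badSets F).card * ((n - 6).choose (k - 6) : ℝ)) ≤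
      6 * (F.card * ((n - 3).choose (k - 3) : ℝ)) :=
    (mul_le_mul_of_nonneg_left h1 hq0).trans h2
  have e6 : ((n - 6).choose (k - 6) : ℝ) = (n.choose k : ℝ) * (k.choose 6 : ℝ) / (n.choose 6 : ℝ) := by
    rw [c6]; field_simp
  have e3 : ((n - 3).choose (k - 3) : ℝ) = (n.choose k : ℝ) * (k.choose 3 : ℝ) / (n.choose 3 : ℝ) := by
    rw [c3]; field_simp
  rw [e6, e3] at h8
  have h9 : (n.choose k : ℝ) * (q * (1 - (badSets F).card * (k.choose 6 : ℝ) / (n.choose 6 : ℝ))) ≤
      (n.choose k : ℝ) * (6 * (k.choose 3 : ℝ) * F.card / (n.choose 3 : ℝ)) := by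
    calc _ = q * ((n.choose k : ℝ) - (badSets F).card *
          ((n.choose k : ℝ) * (k.choose 6 : ℝ) / (n.choose 6 : ℝ))) := by ring
      _ ≤ _ := h8
      _ = _ := by ring
  have h10 := le_of_mul_le_mul_left h9 p0
  rw [le_div_iff₀ p3] at h10
  exact h10

end Pool.Agent.T53b
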