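import Mathlib

/-!
# MP_19b7b8_co: five systems of triples on six points
-/

namespace Pool.Agent.T53b

open Finset

/-- The five systems of triples on the points `a, b, c, d, e, f`: the triples `abc`, `abd`, `cde`
and, in addition, nothing; `cdf`; `adf`; `abf`; `acf` and `adf`. -/
def fiveSystems {n : ℕ} (a b c d e f : Fin n) : Finset (Finset (Finset (Fin n))) :=
  {{{a, b, c}, {a, b, d}, {c, d, e}},
   {{a, b, c}, {a, b, d}, {c, d, e}, {c, d, f}},
   {{a, b, c}, {a, b, d}, {c, d, e}, {a, d, f}},
   {{a, b, c}, {a, b, d}, {c, d, e}, {a, b, f}},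
   {{a, b, c}, {a, b, d}, {c, d, e}, {a, c, f}, {a, d, f}}}

open Classical in
/-- The sets of six points in which the triples of `F` form one of the five systems, for some
naming of the six points. -/
noncomputable def badSets {n : ℕ} (F : Finset (Finset (Fin n))) : Finset (Finset (Fin n)) :=
  (powersetCard 6 univ).filter fun S => ∃ a b c d e f : Fin n, S = {a, b, c, d, e, f} ∧
    F.filter (fun t => t ⊆ S) ∈ fiveSystems a b c d e f

end Pool.Agent.T53b
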