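import Pool.Agent.Lib.MP_19b7b8_co_FA.Leaf

/-!
# MP_19b7b8_co: the test at a leaf for the value 1/4
-/

namespace Pool.Agent.T53b

open Finset Pool.Agent.T53

/-- the codes of the excluded systems met by the enumeration -/
def exL : List ℕ := [1036, 1048, 1100, 1106, 1108, 1112, 1240, 1560, 3104, 3156, 3264, 3329, 20738, 20800, 21760, 55808, 57728, 205312]

/-- membership in the list of the excluded codes -/
def anyL (g : ℕ) : Bool := List.rec false (fun a _ ih => Bool.or (Nat.beq g a) ih) exL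

/-- the test at a leaf -/
def leafb (t4 : ℕ → ℕ) (t2 t1 C : ℕ) : Bool :=
  (cond (Nat.ble (Nat.add (Nat.land (Nat.shiftRight C 2540) 1048575) 1) (Nat.land (Nat.shiftRight C 2640) 1048575)) true
  (cond (Nat.ble (Nat.add (Nat.land (Nat.shiftRight C 2560) 1048575) 1) (Nat.land (Nat.shiftRight C 2640) 1048575)) true
  (cond (Nat.ble (Nat.add (Nat.land (Nat.shiftRight C 2580) 1048575) 1) (Nat.land (Nat.shiftRight C 2640) 1048575)) true
  (cond (Nat.ble (Nat.add (Nat.land (Nat.shiftRight C 2600) 1048575) 1) (Nat.land (Nat.shiftRight C 2640) 1048575)) true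
  (cond (Nat.ble (Nat.add (Nat.land (Nat.shiftRight C 2620) 1048575) 1) (Nat.land (Nat.shiftRight C 2640) 1048575)) true
  (cond (Nat.beq (Nat.land (Nat.shiftRight C 2420) 1048575) 0) true
  (cond (Nat.beq (Nat.land (Nat.shiftRight C 2440) 1048575) 0) true
  (cond (Nat.beq (Nat.land (Nat.shiftRight C 2460) 1048575) 0) true
  (cond (Nat.beq (Nat.land (Nat.shiftRight C 2480) 1048575) 0) true
  (cond (Nat.beq (Nat.land (Nat.shiftRight C 2500) 1048575) 0) true
  (cond (Nat.beq (Nat.land (Nat.shiftRight C 2520) 1048575) 0) true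
  (cond (anyL (Nat.land (Nat.shiftRight C 2640) 1048575)) true
  (Nat.ble (Nat.add (leafS4 t4 C) (Nat.add (leafS2 t2 C) (leafS1 t1 C))) 11072962560)))))))))))))

/-- enumeration: `j` runs over the bits below `n` -/
def chkb (t4 : ℕ → ℕ) (t2 t1 uu : ℕ) (n : ℕ) : ℕ → Bool :=
  Nat.rec (fun C => leafb t4 t2 t1 C)
    (fun j ih C => cond (ih C) (ih (Nat.add C (dg 2660 uu j))) false) n

end Pool.Agent.T53b
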