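import Pool.Agent.Lib.MP_19b7b8_co_FB.Defs

/-!
# MP_19b7b8_co: the two-part system contains none of the five systems
-/

namespace Pool.Agent.T53b

open Finset

theorem six_choose_succ (s : ℕ) : 6 * (s + 1).choose 3 ≤ s ^ 3 := by
  rcases s with _ | r
  · decide
  have h1 := Nat.add_one_mul_choose_eq r 1
  have h2 := Nat.add_one_mul_choose_eq (r + 1) 2
  rw [Nat.choose_one_right] at h1
  have h3 : 6 * (r + 1 + 1).choose 3 = (r + 2) * ((r + 1) * r) := by
    have h2' : (r + 1 + 1) * (r + 1).choose 2 = (r + 1 + 1).choose 3 * 3 := h2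
    have h1' : (r + 1) * r = (r + 1).choose 2 * 2 := h1
    rw [h1']
    nlinarith
  rw [h3]
  nlinarith [Nat.zero_le r]

variable {n : ℕ}

/-- the triples inside `A` or inside its complement -/
def twoPart (A : Finset (Fin n)) : Finset (Finset (Fin n)) :=
  powersetCard 3 A ∪ powersetCard 3 (univ \ A)

theorem mem_twoPart {A t : Finset (Fin n)} :
    t ∈ twoPart A ↔ t.card = 3 ∧ ((∀ v ∈ t, v ∈ A) ∨ ∀ v ∈ t, v ∉ A) := by
  unfold twoPart
  rw [mem_union, mem_powersetCard, mem_powersetCard]
  constructor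
  · rintro (⟨h1, h2⟩ | ⟨h1, h2⟩)
    · exact ⟨h2, Or.inl fun v hv => h1 hv⟩
    · exact ⟨h2, Or.inr fun v hv => (mem_sdiff.1 (h1 hv)).2⟩
  · rintro ⟨h1, h2 | h2⟩
    · exact Or.inl ⟨fun v hv => h2 v hv, h1⟩
    · exact Or.inr ⟨fun v hv => mem_sdiff.2 ⟨mem_univ _, h2 v hv⟩, h1⟩

theorem twoPart_cover (A : Finset (Fin n)) (S : Finset (Fin n)) (hS : S.card = 5) :
    ∃ e ∈ twoPart A, e ⊆ S := by
  classical
  have h1 : (S.filter (· ∈ A)).card + (S.filter fun v => ¬ v ∈ A).card = 5 := by
    rw [card_filter_add_card_filter_not, hS]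
  by_cases h2 : 3 ≤ (S.filter (· ∈ A)).card
  · obtain ⟨e, he, hc⟩ := exists_subset_card_eq h2
    exact ⟨e, mem_twoPart.2 ⟨hc, Or.inl fun v hv => (mem_filter.1 (he hv)).2⟩,
      he.trans (filter_subset _ _)⟩
  · obtain ⟨e, he, hc⟩ := exists_subset_card_eq (show 3 ≤ (S.filter fun v => ¬ v ∈ A).card by omega)
    exact ⟨e, mem_twoPart.2 ⟨hc, Or.inr fun v hv => (mem_filter.1 (he hv)).2⟩,
      he.trans (filter_subset _ _)⟩

theorem twoPart_bad (A : Finset (Fin n)) : badSets (twoPart A) = ∅ := by
  classical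
  rw [eq_empty_iff_forall_notMem]
  intro S hS
  unfold badSets at hS
  obtain ⟨hS1, a, b, c, d, e, f, hSe, hF⟩ := mem_filter.1 hS
  have hcard := (mem_powersetCard.1 hS1).2
  have hnd : [a, b, c, d, e, f].Nodup := by
    have h1 : ([a, b, c, d, e, f] : List (Fin n)).toFinset.card = 6 := by
      rw [← hcard, hSe]
      congr 1
      ext v
      simp
    have h2 : ([a, b, c, d, e, f] : List (Fin n)).length = 6 := rfl
    rw [← Multiset.coe_nodup]
    by_contra hcon
    have h3 : ([a, b, c, d, e, f] : List (Fin n)).toFinset.card <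
        ([a, b, c, d, e, f] : List (Fin n)).length := by
      rw [List.card_toFinset]
      have h4 := List.dedup_sublist ([a, b, c, d, e, f] : List (Fin n))
      rcases Nat.lt_or_ge ([a, b, c, d, e, f] : List (Fin n)).dedup.length
        ([a, b, c, d, e, f] : List (Fin n)).length with h5 | h5
      · exact h5
      · exfalso
        apply hcon
        have h6 := h4.eq_of_length_le h5
        rw [Multiset.coe_nodup, ← h6]
        exact List.nodup_dedup _
    omega
  simp only [List.nodup_cons, List.mem_cons, List.not_mem_nil, or_false, not_or, List.nodup_nil,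
    and_true, not_false_iff] at hnd
  obtain ⟨⟨hab, hac, had, hae, haf⟩, ⟨hbc, hbd, hbe, hbf⟩, ⟨hcd, hce, hcf⟩, ⟨hde, hdf⟩, hef⟩ := hnd
  have m1 : ({a, b, c} : Finset (Fin n)) ∈ (twoPart A).filter fun t => t ⊆ S := by
    unfold fiveSystems at hF
    simp only [mem_insert, mem_singleton] at hF
    rcases hF with h | h | h | h | h <;> rw [h] <;> simp
  have m2 : ({a, b, d} : Finset (Fin n)) ∈ (twoPart A).filter fun t => t ⊆ S := by
    unfold fiveSystems at hF
    simp only [mem_insert, mem_singleton] at hF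
    rcases hF with h | h | h | h | h <;> rw [h] <;> simp
  have m3 : ({a, c, d} : Finset (Fin n)) ∈ (twoPart A).filter fun t => t ⊆ S := by
    rw [mem_filter] at m1 m2 ⊢
    refine ⟨mem_twoPart.2 ⟨card_eq_three.2 ⟨a, c, d, hac, had, hcd, rfl⟩, ?_⟩, ?_⟩
    · obtain ⟨_, h1⟩ := mem_twoPart.1 m1.1
      obtain ⟨_, h2⟩ := mem_twoPart.1 m2.1
      rcases h1 with h1 | h1
      · left
        have hA : a ∈ A := h1 a (by simp)
        have hC : c ∈ A := h1 c (by simp)
        have hD : d ∈ A := by
          rcases h2 with h2 | h2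
          · exact h2 d (by simp)
          · exact absurd hA (h2 a (by simp))
        intro v hv
        simp only [mem_insert, mem_singleton] at hv
        rcases hv with rfl | rfl | rfl <;> assumption
      · right
        have hA : a ∉ A := h1 a (by simp)
        have hC : c ∉ A := h1 c (by simp)
        have hD : d ∉ A := by
          rcases h2 with h2 | h2
          · exact absurd (h2 a (by simp)) hA
          · exact h2 d (by simp)
        intro v hv
        simp only [mem_insert, mem_singleton] at hv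
        rcases hv with rfl | rfl | rfl <;> assumption
    · intro v hv
      rw [hSe]
      simp only [mem_insert, mem_singleton] at hv ⊢
      rcases hv with rfl | rfl | rfl
      · exact Or.inl rfl
      · exact Or.inr (Or.inr (Or.inl rfl))
      · exact Or.inr (Or.inr (Or.inr (Or.inl rfl)))
  have ne_of {x : Fin n} {s t : Finset (Fin n)} (hx : x ∈ s) (hx' : x ∉ t) : s ≠ t := by
    rintro rfl; exact hx' hx
  have n1 : ({a, c, d} : Finset (Fin n)) ≠ {a, b, c} := ne_of (x := d) (by simp) (by
    simp only [mem_insert, mem_singleton, not_or]; exact ⟨Ne.symm had, Ne.symm hbd, Ne.symm hcd⟩)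
  have n2 : ({a, c, d} : Finset (Fin n)) ≠ {a, b, d} := ne_of (x := c) (by simp) (by
    simp only [mem_insert, mem_singleton, not_or]; exact ⟨Ne.symm hac, Ne.symm hbc, hcd⟩)
  have n3 : ({a, c, d} : Finset (Fin n)) ≠ {c, d, e} := ne_of (x := a) (by simp) (by
    simp only [mem_insert, mem_singleton, not_or]; exact ⟨hac, had, hae⟩)
  have n4 : ({a, c, d} : Finset (Fin n)) ≠ {c, d, f} := ne_of (x := a) (by simp) (by
    simp only [mem_insert, mem_singleton, not_or]; exact ⟨hac, had, haf⟩)
  have n5 : ({a, c, d} : Finset (Fin n)) ≠ {a, d, f} := ne_of (x := c) (by simp) (by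
    simp only [mem_insert, mem_singleton, not_or]; exact ⟨Ne.symm hac, hcd, hcf⟩)
  have n6 : ({a, c, d} : Finset (Fin n)) ≠ {a, b, f} := ne_of (x := c) (by simp) (by
    simp only [mem_insert, mem_singleton, not_or]; exact ⟨Ne.symm hac, Ne.symm hbc, hcf⟩)
  have n7 : ({a, c, d} : Finset (Fin n)) ≠ {a, c, f} := ne_of (x := d) (by simp) (by
    simp only [mem_insert, mem_singleton, not_or]; exact ⟨Ne.symm had, Ne.symm hcd, hdf⟩)
  unfold fiveSystems at hF
  simp only [mem_insert, mem_singleton] at hF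
  rcases hF with h | h | h | h | h <;> rw [h] at m3 <;>
    simp only [mem_insert, mem_singleton, n1, n2, n3, n4, n5, n6, n7, or_self] at m3

theorem twoPart_card (A : Finset (Fin n)) (hA : A.card = n / 2) : 24 * (twoPart A).card ≤ n ^ 3 := by
  have h1 : (twoPart A).card ≤ (n / 2).choose 3 + (n - n / 2).choose 3 := by
    unfold twoPart
    refine (card_union_le _ _).trans ?_
    rw [card_powersetCard, card_powersetCard, card_sdiff_of_subset (subset_univ _), card_univ,
      Fintype.card_fin, hA]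
  have h2 : (n / 2).choose 3 ≤ (n / 2 + 1).choose 3 := Nat.choose_le_choose 3 (by omega)
  have h3 : (n - n / 2).choose 3 ≤ (n / 2 + 1).choose 3 := Nat.choose_le_choose 3 (by omega)
  have h4 := six_choose_succ (n / 2)
  have h5 : (2 * (n / 2)) ^ 3 ≤ n ^ 3 := Nat.pow_le_pow_left (by omega) 3
  have h6 : (2 * (n / 2)) ^ 3 = 8 * (n / 2) ^ 3 := by ring
  omega

/-- the two-part system -/
theorem exists_twoPart (n : ℕ) : ∃ F : Finset (Finset (Fin n)), (∀ e ∈ F, e.card = 3) ∧
    (∀ S : Finset (Fin n), S.card = 5 → ∃ e ∈ F, e ⊆ S) ∧ badSets F = ∅ ∧ 24 * F.card ≤ n ^ 3 := by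
  obtain ⟨A, _, hA⟩ := exists_subset_card_eq (show n / 2 ≤ (univ : Finset (Fin n)).card by
    rw [card_univ, Fintype.card_fin]; omega)
  exact ⟨twoPart A, fun e he => (mem_twoPart.1 he).1, twoPart_cover A, twoPart_bad A, twoPart_card A hA⟩

end Pool.Agent.T53b
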