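import Pool.Agent.Lib.MP_19b7b8_co_FB.Count
import Pool.Agent.Lib.MP_19b7b8_co_FB.Sharp

/-!
# MP_19b7b8_co: limit forms of the bound 1/4
-/

namespace Pool.Agent.T53b

open Finset Filter Pool.Agent.T53

variable {n : ℕ}

/-- the bound for a system without bad sets -/
theorem lower_empty (F : Finset (Finset (Fin n))) (h3 : ∀ e ∈ F, e.card = 3)
    (h5 : ∀ S : Finset (Fin n), S.card = 5 → ∃ e ∈ F, e ⊆ S) (hb : badSets F = ∅) :
    (n : ℝ) ^ 3 / 24 - (n : ℝ) ^ 2 / 2 + (n : ℝ) / 3 ≤ F.card := by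
  rcases Nat.eq_zero_or_pos n with h0 | hn
  · subst h0; simp
  have hne : (univ : Finset (Fin n)).Nonempty := ⟨⟨0, hn⟩, mem_univ _⟩
  have h := lower_sub F h3 h5 univ hne (fun S hS => by rw [hb] at hS; simp at hS)
  rw [card_univ, Fintype.card_fin] at h
  have h1 : ((F.filter fun t => t ⊆ univ).card : ℝ) ≤ F.card := by
    exact_mod_cast card_filter_le _ _
  linarith

theorem six_choose (n : ℕ) : 6 * (n.choose 3 : ℝ) ≤ (n : ℝ) ^ 3 := by
  have h := Nat.choose_le_pow_div (α := ℝ) 3 n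
  have h3 : ((3 : ℕ).factorial : ℝ) = 6 := by norm_num [Nat.factorial]
  rw [h3] at h
  linarith

/-- the bound for systems with few bad sets -/
theorem lower_few (ε : ℝ) (hε : 0 < ε) : ∃ δ : ℝ, 0 < δ ∧ ∃ n0 : ℕ, ∀ n : ℕ, n0 ≤ n →
    ∀ F : Finset (Finset (Fin n)), (∀ e ∈ F, e.card = 3) →
      (∀ S : Finset (Fin n), S.card = 5 → ∃ e ∈ F, e ⊆ S) →
      ((badSets F).card : ℝ) ≤ δ * (n.choose 6 : ℝ) → (1 / 4 - ε) * (n.choose 3 : ℝ) ≤ F.card := by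
  obtain ⟨m, hm⟩ := exists_nat_gt (6 / ε)
  set k : ℕ := max m 12 with hk
  have hk12 : 12 ≤ k := le_max_right _ _
  have hkm : m ≤ k := le_max_left _ _
  have hk0 : (0 : ℝ) < k := by exact_mod_cast (show 0 < k by omega)
  have hkε : 6 / ε < k := hm.trans_le (by exact_mod_cast hkm)
  have h6 : 3 / (k : ℝ) ≤ ε / 2 := by
    rw [div_lt_iff₀ hε] at hkε
    rw [div_le_iff₀ hk0]
    linarith
  have hc6 : (0 : ℝ) < k.choose 6 := by exact_mod_cast Nat.choose_pos (show 6 ≤ k by omega)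
  refine ⟨ε / (k.choose 6 : ℝ), by positivity, k, fun n hn F h3 h5 hB => ?_⟩
  have hkn : k ≤ n := hn
  have h := lower_count F h3 h5 k hk12 hkn
  have p3 : (0 : ℝ) < n.choose 3 := by exact_mod_cast Nat.choose_pos (show 3 ≤ n by omega)
  have p6 : (0 : ℝ) < n.choose 6 := by exact_mod_cast Nat.choose_pos (show 6 ≤ n by omega)
  have k3 : (0 : ℝ) < k.choose 3 := by exact_mod_cast Nat.choose_pos (show 3 ≤ k by omega)
  set b : ℝ := (badSets F).card * (k.choose 6 : ℝ) / (n.choose 6 : ℝ) with hb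
  have hb0 : 0 ≤ b := by positivity
  have hb1 : b ≤ ε := by
    rw [hb, div_le_iff₀ p6]
    calc ((badSets F).card : ℝ) * (k.choose 6 : ℝ) ≤ (ε / (k.choose 6 : ℝ) * (n.choose 6 : ℝ)) * (k.choose 6 : ℝ) :=
          mul_le_mul_of_nonneg_right hB hc6.le
      _ = ε * (n.choose 6 : ℝ) := by field_simp
  have hF0 : (0 : ℝ) ≤ F.card := Nat.cast_nonneg _
  by_cases h14 : 1 / 4 - ε ≤ 0
  · exact (mul_nonpos_of_nonpos_of_nonneg h14 p3.le).trans hF0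
  rw [not_le] at h14
  have hkk : (1 / 4 - 3 / (k : ℝ)) * (k : ℝ) ^ 3 ≤ (k : ℝ) ^ 3 / 4 - 3 * (k : ℝ) ^ 2 + 2 * k := by
    have : (1 / 4 - 3 / (k : ℝ)) * (k : ℝ) ^ 3 = (k : ℝ) ^ 3 / 4 - 3 * (k : ℝ) ^ 2 := by field_simp
    linarith
  have h7 := six_choose k
  have h8 : 0 ≤ 1 / 4 - ε / 2 := by linarith
  have h9 : (1 / 4 - ε / 2) * (6 * (k.choose 3 : ℝ)) ≤ (k : ℝ) ^ 3 / 4 - 3 * (k : ℝ) ^ 2 + 2 * k := by
    calc _ ≤ (1 / 4 - ε / 2) * (k : ℝ) ^ 3 := mul_le_mul_of_nonneg_left h7 h8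
      _ ≤ (1 / 4 - 3 / (k : ℝ)) * (k : ℝ) ^ 3 := by
          refine mul_le_mul_of_nonneg_right (by linarith) (by positivity)
      _ ≤ _ := hkk
  have h10 : 0 ≤ 1 - b := by linarith
  have h11 : (1 / 4 - ε / 2) * (6 * (k.choose 3 : ℝ)) * (1 - b) * (n.choose 3 : ℝ) ≤
      6 * (k.choose 3 : ℝ) * F.card :=
    (mul_le_mul_of_nonneg_right (mul_le_mul_of_nonneg_right h9 h10) p3.le).trans h
  have h12 : (6 * (k.choose 3 : ℝ)) * ((1 / 4 - ε / 2) * (1 - b) * (n.choose 3 : ℝ)) ≤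
      (6 * (k.choose 3 : ℝ)) * F.card := by
    calc _ = (1 / 4 - ε / 2) * (6 * (k.choose 3 : ℝ)) * (1 - b) * (n.choose 3 : ℝ) := by ring
      _ ≤ _ := h11
  have h13 := le_of_mul_le_mul_left h12 (by positivity)
  refine le_trans (mul_le_mul_of_nonneg_right ?_ p3.le) h13
  nlinarith

/-- the smallest number of triples of a system without bad sets, divided by `n choose 3`,
tends to 1/4 -/
theorem limit_quarter : Tendsto (fun n : ℕ =>
    ((sInf {m : ℕ | ∃ F : Finset (Finset (Fin n)), (∀ e ∈ F, e.card = 3) ∧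
      (∀ S : Finset (Fin n), S.card = 5 → ∃ e ∈ F, e ⊆ S) ∧ badSets F = ∅ ∧ F.card = m} : ℕ) : ℝ) /
      ((n.choose 3 : ℕ) : ℝ)) atTop (nhds (1 / 4)) := by
  have h1 : Tendsto (fun n : ℕ => (1 / 4 : ℝ) - 3 / (n : ℝ)) atTop (nhds (1 / 4 - 0)) :=
    tendsto_const_nhds.sub (tendsto_const_div_atTop_nhds_zero_nat 3)
  rw [sub_zero] at h1
  have h2 : Tendsto (fun n : ℕ => (1 / 4 : ℝ) * ((1 - 2 / (n : ℝ)) ^ 3)⁻¹) atTop (nhds (1 / 4)) := by
    have h3 : Tendsto (fun n : ℕ => (1 : ℝ) - 2 / (n : ℝ)) atTop (nhds (1 - 0)) :=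
      tendsto_const_nhds.sub (tendsto_const_div_atTop_nhds_zero_nat 2)
    rw [sub_zero] at h3
    have h4 := ((h3.pow 3).inv₀ (by norm_num)).const_mul (1 / 4 : ℝ)
    simpa using h4
  refine tendsto_of_tendsto_of_tendsto_of_le_of_le' h1 h2 ?_ ?_
  · filter_upwards [eventually_ge_atTop 3] with n hn
    have hn0 : (0 : ℝ) < n := by exact_mod_cast (show 0 < n by omega)
    have hc : (0 : ℝ) < (n.choose 3 : ℝ) := by exact_mod_cast Nat.choose_pos hn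
    obtain ⟨F0, f1, f2, f3, _⟩ := exists_twoPart n
    have hne : {m : ℕ | ∃ F : Finset (Finset (Fin n)), (∀ e ∈ F, e.card = 3) ∧
      (∀ S : Finset (Fin n), S.card = 5 → ∃ e ∈ F, e ⊆ S) ∧ badSets F = ∅ ∧ F.card = m}.Nonempty :=
      ⟨F0.card, F0, f1, f2, f3, rfl⟩
    obtain ⟨F, g1, g2, g3, g4⟩ := Nat.sInf_mem hne
    rw [← g4]
    have h5 := lower_empty F g1 g2 g3
    have h6 := six_choose n
    rw [le_div_iff₀ hc]
    have h7 : ((1 / 4 : ℝ) - 3 / n) * (n : ℝ) ^ 3 ≤ 6 * F.card := by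
      have : ((1 / 4 : ℝ) - 3 / n) * (n : ℝ) ^ 3 = (n : ℝ) ^ 3 / 4 - 3 * (n : ℝ) ^ 2 := by field_simp
      rw [this]; linarith
    by_cases h8 : (1 / 4 : ℝ) - 3 / n ≤ 0
    · exact (mul_nonpos_of_nonpos_of_nonneg h8 hc.le).trans (Nat.cast_nonneg _)
    · rw [not_le] at h8
      have := mul_le_mul_of_nonneg_left h6 h8.le
      linarith
  · filter_upwards [eventually_ge_atTop 3] with n hn
    have hn0 : (0 : ℝ) < n := by exact_mod_cast (show 0 < n by omega)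
    have hn3 : (3 : ℝ) ≤ n := by exact_mod_cast hn
    have hc : (0 : ℝ) < (n.choose 3 : ℝ) := by exact_mod_cast Nat.choose_pos hn
    obtain ⟨F0, f1, f2, f3, f4⟩ := exists_twoPart n
    have h5 : sInf {m : ℕ | ∃ F : Finset (Finset (Fin n)), (∀ e ∈ F, e.card = 3) ∧
      (∀ S : Finset (Fin n), S.card = 5 → ∃ e ∈ F, e ⊆ S) ∧ badSets F = ∅ ∧ F.card = m} ≤ F0.card :=
      Nat.sInf_le ⟨F0, f1, f2, f3, rfl⟩
    have h5' : ((sInf {m : ℕ | ∃ F : Finset (Finset (Fin n)), (∀ e ∈ F, e.card = 3) ∧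
      (∀ S : Finset (Fin n), S.card = 5 → ∃ e ∈ F, e ⊆ S) ∧ badSets F = ∅ ∧ F.card = m} : ℕ) : ℝ) ≤
      F0.card := by exact_mod_cast h5
    have f4' : 24 * (F0.card : ℝ) ≤ (n : ℝ) ^ 3 := by exact_mod_cast f4
    have h6 : ((n : ℝ) - 2) ^ 3 ≤ 6 * (n.choose 3 : ℝ) := by
      have h7 := Nat.pow_sub_le_descFactorial n 3
      rw [Nat.descFactorial_eq_factorial_mul_choose] at h7
      have h8 : (((n + 1 - 3 : ℕ) : ℝ)) ^ 3 ≤ ((3 : ℕ).factorial : ℝ) * (n.choose 3 : ℝ) := by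
        exact_mod_cast h7
      have h9 : ((n + 1 - 3 : ℕ) : ℝ) = (n : ℝ) - 2 := by
        rw [Nat.cast_sub (by omega)]
        push_cast
        ring
      rw [h9] at h8
      have h10 : ((3 : ℕ).factorial : ℝ) = 6 := by norm_num [Nat.factorial]
      rwa [h10] at h8
    rw [div_le_iff₀ hc]
    have hp : (0 : ℝ) < (n : ℝ) - 2 := by linarith
    have e1 : (1 - 2 / (n : ℝ)) = ((n : ℝ) - 2) / n := by field_simp
    rw [e1, div_pow, inv_div]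
    have h11 : (n : ℝ) ^ 3 ≤ (n : ℝ) ^ 3 / ((n : ℝ) - 2) ^ 3 * (6 * (n.choose 3 : ℝ)) := by
      have h12 : (n : ℝ) ^ 3 / ((n : ℝ) - 2) ^ 3 * ((n : ℝ) - 2) ^ 3 = (n : ℝ) ^ 3 := by
        field_simp
      calc (n : ℝ) ^ 3 = (n : ℝ) ^ 3 / ((n : ℝ) - 2) ^ 3 * ((n : ℝ) - 2) ^ 3 := h12.symm
        _ ≤ _ := mul_le_mul_of_nonneg_left h6 (by positivity)
    nlinarith

end Pool.Agent.T53b
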