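import Pool.Agent.Lib.MP_19b7b8_co_FA.Fields
import Pool.Agent.Lib.MP_19b7b8_co_FB.Leaf
import Pool.Agent.Lib.MP_19b7b8_co_FB.DataT

/-!
# MP_19b7b8_co: two-level lookups and the check functions for the large table (value 1/4)
-/

namespace Pool.Agent.T53b

open Finset Pool.Agent.T53

theorem tqb_eq (k r : ℕ) : tqb k r = dg 32 (P5_0 k) r := rfl

theorem ttb_eq (k r : ℕ) (hr : r < 1024) : ttb (r + 1024 * k) = tqb k r := by
  unfold ttb
  have e1 : Nat.shiftRight (r + 1024 * k) 10 = k := by
    show (r + 1024 * k) >>> 10 = _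
    rw [Nat.shiftRight_eq_div_pow]; omega
  have e2 : Nat.land (r + 1024 * k) 1023 = r := by
    show (r + 1024 * k) &&& (2 ^ 10 - 1) = _
    rw [Nat.and_two_pow_sub_one_eq_mod]; omega
  rw [e1, e2]

/-- the representatives 0, 1, 3, 7 of the types -/
noncomputable def tr4 (i : ℕ) : ℕ := dg 4 TRb i

/-- entries of the vectors of the blocks of type 4, shifted by `2^14` -/
noncomputable def rvb (i j f : ℕ) : ℕ := dg 16 (dg 1024 V4b (Nat.add (Nat.mul 31 i) j)) f

/-- check of the Gram identity, for one type and one column -/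
noncomputable def ckG1b (i f' : ℕ) : Bool := allN (fun f =>
  Nat.beq (Nat.add (tqb f' (Nat.add (tr4 i) (Nat.mul 16 f)))
      (Nat.mul 16384 (sumN (fun j => Nat.add (rvb i j f) (rvb i j f')) 31)))
    (Nat.add (sumN (fun j => Nat.mul (rvb i j f) (rvb i j f')) 31) (Nat.add 8321499136 268435456))) 64

/-- check of the Gram identity, for one type and one block of columns -/
noncomputable def ckGb (i b : ℕ) : Bool := allN (fun k => ckG1b i (ixb b k)) 16

/-- check of the table for the type 15, for one column -/
noncomputable def ckZ1 (f' : ℕ) : Bool := allN (fun f =>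
  Nat.beq (tqb f' (Nat.add 15 (Nat.mul 16 f))) 268435456) 64

/-- check of the invariance of the table, for one type and one column -/
noncomputable def ckI1b (a t f' : ℕ) : Bool := allN (fun f =>
  Nat.beq (tqb (pm (af4 a) 6 f') (Nat.add (pm (at4 a) 4 t) (Nat.mul 16 (pm (af4 a) 6 f))))
    (tqb f' (Nat.add t (Nat.mul 16 f)))) 64

/-- check of the invariance of the table, for one type and one block of columns -/
noncomputable def ckIb (a t b : ℕ) : Bool := allN (fun i => ckI1b a t (ixb b i)) 16

end Pool.Agent.T53b
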