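import Pool.Agent.Lib.MP_19b7b8_co_FB.Blocks
import Pool.Agent.Lib.MP_19b7b8_co_FA.Opt

/-!
# MP_19b7b8_co: the lower bound for relations and for induced subsystems (value 1/4)
-/

namespace Pool.Agent.T53b

open Finset Pool.Agent.T53

/-- the bound for a relation on a nonempty finite type -/
theorem lower_rel {V : Type*} [Fintype V] [Nonempty V] {c : V → V → V → Bool} (hc : Sys c)
    (h5 : No5 c) : (Fintype.card V : ℝ) ^ 3 / 4 ≤ ∑ x, ∑ y, ∑ z, ((c x y z).toNat : ℝ) := by
  have hn' : (0 : ℝ) < Fintype.card V := by exact_mod_cast Fintype.card_pos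
  have hu : (fun _ : V => (1 : ℝ) / Fintype.card V) ∈ stdSimplex ℝ V := by
    refine ⟨fun _ => by positivity, ?_⟩
    simp
  obtain ⟨w, hw, D, hD, hreg⟩ := exists_regular (fun x y z => ((c x y z).toNat : ℝ))
    (fun x y z => by rw [hc.s12]) (fun x y z => by rw [hc.s23]) _ hu
  have hb := regular_quarter w hw.1 hw.2 hc h5 D (fun x hx => hreg x hx)
  have h1 : tri (fun x y z => ((c x y z).toNat : ℝ)) (fun _ : V => (1 : ℝ) / Fintype.card V)
      (fun _ => 1 / (Fintype.card V : ℝ)) (fun _ => 1 / (Fintype.card V : ℝ)) =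
      (∑ x, ∑ y, ∑ z, ((c x y z).toNat : ℝ)) / (Fintype.card V : ℝ) ^ 3 := by
    unfold tri
    simp only [← mul_sum]
    field_simp
  rw [h1] at hD
  have h3 : 1 / 4 * (Fintype.card V : ℝ) ^ 3 ≤ ∑ x, ∑ y, ∑ z, ((c x y z).toNat : ℝ) := by
    have h4 := hb.trans hD
    rwa [le_div_iff₀ (by positivity)] at h4
  linarith

variable {n : ℕ}

/-- the relation of a system of triples: related, or not all distinct -/
def rel (F : Finset (Finset (Fin n))) (x y z : Fin n) : Bool :=
  decide (x = y ∨ y = z ∨ x = z ∨ ({x, y, z} : Finset (Fin n)) ∈ F)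

/-- a set of three of the values of an injective map -/
theorem three_of {m : ℕ} (φ : Fin m → Fin n) (hφ : Function.Injective φ) (e : Finset (Fin n))
    (he : e.card = 3) (hsub : ∀ v ∈ e, ∃ i, φ i = v) :
    ∃ i j k : Fin m, i < j ∧ j < k ∧ ({φ i, φ j, φ k} : Finset (Fin n)) = e := by
  classical
  set T : Finset (Fin m) := univ.filter fun i => φ i ∈ e with hT
  have himg : T.image φ = e := by
    ext v
    simp only [mem_image, hT, mem_filter, mem_univ, true_and]
    constructor
    · rintro ⟨i, hi, rfl⟩; exact hi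
    · intro hv
      obtain ⟨i, rfl⟩ := hsub v hv
      exact ⟨i, hv, rfl⟩
  have hTc : T.card = 3 := by
    rw [← he, ← himg, card_image_of_injective _ hφ]
  set g := T.orderEmbOfFin hTc with hg
  have hrange : Set.range g = (T : Set (Fin m)) := T.range_orderEmbOfFin hTc
  refine ⟨g 0, g 1, g 2, g.strictMono (by decide), g.strictMono (by decide), ?_⟩
  rw [← himg]
  ext v
  simp only [mem_insert, mem_singleton, mem_image]
  constructor
  · have hm (i : Fin 3) : g i ∈ T := T.orderEmbOfFin_mem hTc i
    rintro (rfl | rfl | rfl)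
    · exact ⟨_, hm 0, rfl⟩
    · exact ⟨_, hm 1, rfl⟩
    · exact ⟨_, hm 2, rfl⟩
  · rintro ⟨i, hi, rfl⟩
    have : i ∈ Set.range g := by rw [hrange]; exact hi
    obtain ⟨j, rfl⟩ := this
    fin_cases j
    · exact Or.inl rfl
    · exact Or.inr (Or.inl rfl)
    · exact Or.inr (Or.inr rfl)

theorem rel_sys (F : Finset (Finset (Fin n))) (h3 : ∀ e ∈ F, e.card = 3)
    (h5 : ∀ S : Finset (Fin n), S.card = 5 → ∃ e ∈ F, e ⊆ S) : Sys (rel F) := by
  classical
  refine ⟨fun x y z => ?_, fun x y z => ?_, fun φ => ?_⟩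
  · unfold rel
    have e : ({x, y, z} : Finset (Fin n)) = {y, x, z} := by
      ext v; simp only [mem_insert, mem_singleton]; tauto
    rw [e]
    congr 1
    apply propext
    constructor <;> rintro (h | h | h | h)
    · exact Or.inl h.symm
    · exact Or.inr (Or.inr (Or.inl h))
    · exact Or.inr (Or.inl h)
    · exact Or.inr (Or.inr (Or.inr h))
    · exact Or.inl h.symm
    · exact Or.inr (Or.inr (Or.inl h))
    · exact Or.inr (Or.inl h)
    · exact Or.inr (Or.inr (Or.inr h))
  · unfold rel
    have e : ({x, y, z} : Finset (Fin n)) = {x, z, y} := by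
      ext v; simp only [mem_insert, mem_singleton]; tauto
    rw [e]
    congr 1
    apply propext
    constructor <;> rintro (h | h | h | h)
    · exact Or.inr (Or.inr (Or.inl h))
    · exact Or.inr (Or.inl h.symm)
    · exact Or.inl h
    · exact Or.inr (Or.inr (Or.inr h))
    · exact Or.inr (Or.inr (Or.inl h))
    · exact Or.inr (Or.inl h.symm)
    · exact Or.inl h
    · exact Or.inr (Or.inr (Or.inr h))
  · by_cases hφ : Function.Injective φ
    · obtain ⟨e, he, hsub⟩ := h5 (univ.map ⟨φ, hφ⟩) (by simp)
      obtain ⟨i, j, k, hij, hjk, hset⟩ := three_of φ hφ e (h3 e he) (fun v hv => by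
        have := hsub hv
        simpa using this)
      refine ⟨i, j, k, hij, hjk, ?_⟩
      unfold rel
      rw [hset]
      simp [he]
    · have hne : ∃ i j : Fin 5, i < j ∧ φ i = φ j := by
        by_contra hcon
        apply hφ
        intro i j hij
        by_contra hne
        rcases lt_or_gt_of_ne hne with h | h
        · exact hcon ⟨i, j, h, hij⟩
        · exact hcon ⟨j, i, h, hij.symm⟩
      obtain ⟨i, j, hij, he⟩ := hne
      by_cases hj : j < 4
      · exact ⟨i, j, 4, hij, hj, by unfold rel; simp [he]⟩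
      · have hj4 : j = 4 := by
          have : j.val < 5 := j.isLt
          have h4 : ¬ j.val < 4 := hj
          exact Fin.ext (by show j.val = 4; omega)
        subst hj4
        by_cases hi : i < 3
        · exact ⟨i, 3, 4, hi, by decide, by unfold rel; simp [he]⟩
        · have hi3 : i = 3 := by
            have h1 : i.val < 4 := hij
            have h2 : ¬ i.val < 3 := hi
            exact Fin.ext (by show i.val = 3; omega)
          subst hi3
          exact ⟨0, 3, 4, by decide, by decide, by unfold rel; simp [he]⟩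

theorem card_triples (e : Finset (Fin n)) (he : e.card = 3) :
    ((univ : Finset (Fin n × Fin n × Fin n)).filter fun p => ({p.1, p.2.1, p.2.2} : Finset (Fin n)) = e).card
      ≤ 6 := by
  classical
  obtain ⟨a, b, d, hab, had, hbd, rfl⟩ := card_eq_three.1 he
  have hsub : ((univ : Finset (Fin n × Fin n × Fin n)).filter
      fun p => ({p.1, p.2.1, p.2.2} : Finset (Fin n)) = {a, b, d}) ⊆
      {(a, b, d), (a, d, b), (b, a, d), (b, d, a), (d, a, b), (d, b, a)} := by
    rintro ⟨x, y, z⟩ hp
    simp only [mem_filter, mem_univ, true_and] at hp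
    have hx : x ∈ ({a, b, d} : Finset (Fin n)) := by rw [← hp]; simp
    have hy : y ∈ ({a, b, d} : Finset (Fin n)) := by rw [← hp]; simp
    have hz : z ∈ ({a, b, d} : Finset (Fin n)) := by rw [← hp]; simp
    have ha : a ∈ ({x, y, z} : Finset (Fin n)) := by rw [hp]; simp
    have hb : b ∈ ({x, y, z} : Finset (Fin n)) := by rw [hp]; simp
    have hd : d ∈ ({x, y, z} : Finset (Fin n)) := by rw [hp]; simp
    simp only [mem_insert, mem_singleton] at hx hy hz ha hb hd
    simp only [mem_insert, mem_singleton, Prod.mk.injEq]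
    rcases hx with rfl | rfl | rfl <;> rcases hy with rfl | rfl | rfl <;>
      rcases hz with rfl | rfl | rfl <;> simp_all <;>
      (rcases hd with h | h | h <;> simp_all)
  exact (card_le_card hsub).trans (card_le_six)

end Pool.Agent.T53b
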