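import Pool.Agent.Lib.MP_19b7b8_co_FB.Rel
import Pool.Agent.Lib.MP_19b7b8_co_FB.Defs

/-!
# MP_19b7b8_co: samples with an excluded code come from six-point sets with an excluded system
-/

namespace Pool.Agent.T53b

open Finset Pool.Agent.T53

variable {n : ℕ}

theorem ckPair : allN (fun i => allN (fun j => Bool.or (Bool.not (Nat.ble (Nat.add i 1) j))
    (List.rec true (fun g _ ih => Bool.and (anyN (fun k => Bool.and (Bool.not (Nat.beq k i))
      (Bool.and (Bool.not (Nat.beq k j)) (Nat.beq (bt g (idx i j k)) 0))) 6) ih) five)) 6) 6 = true := by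
  decide +kernel

theorem allRec_spec {P : ℕ → Bool} {l : List ℕ}
    (h : (List.rec true (fun g _ ih => Bool.and (P g) ih) l : Bool) = true) : ∀ g ∈ l, P g = true := by
  induction l with
  | nil => intro g hg; simp at hg
  | cons a l ih =>
    have h1 : (P a && (List.rec true (fun g _ ih => Bool.and (P g) ih) l : Bool)) = true := h
    rw [Bool.and_eq_true] at h1
    intro g hg
    rcases List.mem_cons.1 hg with rfl | hg
    · exact h1.1
    · exact ih h1.2 g hg

theorem pair_zero {i j g : ℕ} (hij : i < j) (hj : j < 6) (hg : g ∈ five) :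
    ∃ k < 6, k ≠ i ∧ k ≠ j ∧ bt g (idx i j k) = 0 := by
  have h := (allN_iff _ _).1 ((allN_iff _ _).1 ckPair i (by omega)) j hj
  have e1 : Nat.ble (Nat.add i 1) j = true := Nat.ble_eq_true_of_le hij
  rw [e1] at h
  have h2 := allRec_spec (by simpa using h) g hg
  obtain ⟨k, hk, h3⟩ := (anyN_iff _ _).1 h2
  simp only [Bool.and_eq_true, Bool.not_eq_true'] at h3
  refine ⟨k, hk, ?_, ?_, Nat.eq_of_beq_eq_true h3.2.2⟩
  · rintro rfl
    have := h3.1
    rw [show Nat.beq k k = true from Nat.beq_refl k] at this
    exact absurd this (by decide)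
  · rintro rfl
    have := h3.2.1
    rw [show Nat.beq k k = true from Nat.beq_refl k] at this
    exact absurd this (by decide)

theorem inj_of_five {F : Finset (Finset (Fin n))} (hc : Sys (rel F)) (Y : Fin 6 → Fin n)
    (h : gX (rel F) Y ∈ five) : Function.Injective Y := by
  by_contra hcon
  have hne : ∃ i j : Fin 6, i < j ∧ Y i = Y j := by
    by_contra hcon2
    apply hcon
    intro i j hij
    by_contra hne
    rcases lt_or_gt_of_ne hne with h | h
    · exact hcon2 ⟨i, j, h, hij⟩
    · exact hcon2 ⟨j, i, h, hij.symm⟩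
  obtain ⟨i, j, hij, he⟩ := hne
  obtain ⟨k, hk, hki, hkj, h0⟩ := pair_zero (show i.val < j.val from hij) j.isLt h
  have hlt := idx_lt (a := i.val) (b := j.val) (e := k) i.isLt j.isLt hk
    (by have : i.val < j.val := hij; omega) (Ne.symm hki) (Ne.symm hkj)
  rw [bt_gX _ _ _ hlt, ← cidx hc Y i.isLt j.isLt hk (by have : i.val < j.val := hij; omega)
    (Ne.symm hki) (Ne.symm hkj), fn_fin, fn_fin] at h0
  have : rel F (Y i) (Y j) (Y (fn k)) = true := by
    unfold rel
    simp [he]
  rw [this] at h0
  simp at h0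

/-- the values of `Y` at the triple in position `j` -/
noncomputable def tY (Y : Fin 6 → Fin n) (j : ℕ) : Finset (Fin n) :=
  {Y (fn (ta j)), Y (fn (tb j)), Y (fn (tc j))}

theorem filter_eq (F : Finset (Finset (Fin n))) (h3 : ∀ e ∈ F, e.card = 3) (Y : Fin 6 → Fin n)
    (hY : Function.Injective Y) : F.filter (fun t => t ⊆ univ.image Y) =
      ((range 20).filter fun j => bt (gX (rel F) Y) j = 1).image (tY Y) := by
  ext t
  simp only [mem_filter, mem_image, mem_range]
  constructor
  · rintro ⟨ht, hsub⟩
    obtain ⟨i, j, k, hij, hjk, he⟩ := three_of Y hY t (h3 t ht) (fun v hv => by simpa using hsub hv)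
    obtain ⟨e1, e2, e3, e4⟩ := idx_sorted (show i.val < j.val from hij) (show j.val < k.val from hjk) k.isLt
    refine ⟨idx i.val j.val k.val, ⟨e4, ?_⟩, ?_⟩
    · rw [bt_gX _ _ _ e4]
      unfold bX
      rw [e1, e2, e3, fn_fin, fn_fin, fn_fin]
      have : rel F (Y i) (Y j) (Y k) = true := by
        unfold rel
        rw [he]
        simp [ht]
      rw [this]
      rfl
    · unfold tY
      rw [e1, e2, e3, fn_fin, fn_fin, fn_fin]
      exact he
  · rintro ⟨p, ⟨hp, hb⟩, rfl⟩
    obtain ⟨l1, l2, l3⟩ := tri_lt hp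
    rw [bt_gX _ _ _ hp] at hb
    unfold bX at hb
    have hfn (u v : ℕ) (hu : u < 6) (hv : v < 6) (huv : u ≠ v) : Y (fn u) ≠ Y (fn v) := by
      intro h
      have h1 := congrArg Fin.val (hY h)
      rw [fn_val u hu, fn_val v hv] at h1
      exact huv h1
    have hr : rel F (Y (fn (ta p))) (Y (fn (tb p))) (Y (fn (tc p))) = true := by
      by_contra hcon
      rw [Bool.not_eq_true] at hcon
      rw [hcon] at hb
      simp at hb
    unfold rel at hr
    have hr' := of_decide_eq_true hr
    rcases hr' with h | h | h | h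
    · exact absurd h (hfn _ _ (by omega) (by omega) (by omega))
    · exact absurd h (hfn _ _ (by omega) (by omega) (by omega))
    · exact absurd h (hfn _ _ (by omega) (by omega) (by omega))
    · refine ⟨h, ?_⟩
      intro v hv
      unfold tY at hv
      simp only [mem_insert, mem_singleton] at hv
      rcases hv with rfl | rfl | rfl <;> exact mem_image_of_mem _ (mem_univ _)

theorem tY_of {Y : Fin 6 → Fin n} {j a b e : ℕ} (h : isT TA TB TC j a b e = true) :
    tY Y j = {Y (fn a), Y (fn b), Y (fn e)} := by
  simp only [isT, Bool.and_eq_true] at h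
  unfold tY ta tb tc
  rw [Nat.eq_of_beq_eq_true h.1, Nat.eq_of_beq_eq_true h.2.1, Nat.eq_of_beq_eq_true h.2.2]

theorem image_six (Y : Fin 6 → Fin n) :
    (univ : Finset (Fin 6)).image Y = {Y 0, Y 1, Y 2, Y 3, Y 4, Y 5} := by
  ext v
  simp only [mem_image, mem_univ, true_and, mem_insert, mem_singleton]
  constructor
  · rintro ⟨i, rfl⟩
    fin_cases i <;> simp
  · rintro (rfl | rfl | rfl | rfl | rfl | rfl)
    · exact ⟨0, rfl⟩
    · exact ⟨1, rfl⟩
    · exact ⟨2, rfl⟩
    · exact ⟨3, rfl⟩
    · exact ⟨4, rfl⟩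
    · exact ⟨5, rfl⟩

theorem bits1 : (range 20).filter (fun j => bt 787456 j = 1) = {10, 18, 19} := by decide +kernel
theorem bits2 : (range 20).filter (fun j => bt 787460 j = 1) = {2, 10, 18, 19} := by decide +kernel
theorem bits3 : (range 20).filter (fun j => bt 787584 j = 1) = {7, 10, 18, 19} := by decide +kernel
theorem bits4 : (range 20).filter (fun j => bt 787968 j = 1) = {9, 10, 18, 19} := by decide +kernel
theorem bits5 : (range 20).filter (fun j => bt 787840 j = 1) = {7, 8, 10, 18, 19} := by decide +kernel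

/-- a sample with an excluded code: its values form a six-point set with an excluded system -/
theorem bad_of_five {F : Finset (Finset (Fin n))} (h3 : ∀ e ∈ F, e.card = 3) (hc : Sys (rel F))
    (Y : Fin 6 → Fin n) (h : gX (rel F) Y ∈ five) : univ.image Y ∈ badSets F := by
  classical
  have hY := inj_of_five hc Y h
  have hf := filter_eq F h3 Y hY
  have ht := ckTri
  simp only [Bool.and_eq_true] at ht
  have t19 : tY Y 19 = {Y 0, Y 1, Y 2} := tY_of (a := 0) (b := 1) (e := 2) (by tauto)
  have t18 : tY Y 18 = {Y 0, Y 1, Y 3} := tY_of (a := 0) (b := 1) (e := 3) (by tauto)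
  have t10 : tY Y 10 = {Y 2, Y 3, Y 4} := tY_of (a := 2) (b := 3) (e := 4) (by tauto)
  have t2 : tY Y 2 = {Y 2, Y 3, Y 5} := tY_of (a := 2) (b := 3) (e := 5) (by tauto)
  have t7 : tY Y 7 = {Y 0, Y 3, Y 5} := tY_of (a := 0) (b := 3) (e := 5) (by tauto)
  have t9 : tY Y 9 = {Y 0, Y 1, Y 5} := tY_of (a := 0) (b := 1) (e := 5) (by tauto)
  have t8 : tY Y 8 = {Y 0, Y 2, Y 5} := tY_of (a := 0) (b := 2) (e := 5) (by tauto)
  unfold badSets
  rw [mem_filter, mem_powersetCard]
  refine ⟨⟨subset_univ _, ?_⟩, Y 0, Y 1, Y 2, Y 3, Y 4, Y 5, image_six Y, ?_⟩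
  · rw [card_image_of_injective _ hY]; simp
  have hf' : F.filter (fun t => t ⊆ univ.image Y) =
      ((range 20).filter fun j => bt (gX (rel F) Y) j = 1).image (tY Y) := hf
  unfold fiveSystems
  simp only [mem_insert, mem_singleton]
  unfold five at h
  simp only [List.mem_cons, List.not_mem_nil, or_false] at h
  rcases h with h | h | h | h | h
  · left
    rw [h, bits1] at hf'
    rw [hf']
    simp only [image_insert, image_singleton, t19, t18, t10]
    ext t
    simp only [mem_insert, mem_singleton]
    tauto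
  · right; left
    rw [h, bits2] at hf'
    rw [hf']
    simp only [image_insert, image_singleton, t19, t18, t10, t2]
    ext t
    simp only [mem_insert, mem_singleton]
    tauto
  · right; right; left
    rw [h, bits3] at hf'
    rw [hf']
    simp only [image_insert, image_singleton, t19, t18, t10, t7]
    ext t
    simp only [mem_insert, mem_singleton]
    tauto
  · right; right; right; left
    rw [h, bits4] at hf'
    rw [hf']
    simp only [image_insert, image_singleton, t19, t18, t10, t9]
    ext t
    simp only [mem_insert, mem_singleton]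
    tauto
  · right; right; right; right
    rw [h, bits5] at hf'
    rw [hf']
    simp only [image_insert, image_singleton, t19, t18, t10, t7, t8]
    ext t
    simp only [mem_insert, mem_singleton]
    tauto

end Pool.Agent.T53b
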